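import Pool.Agent.NH35.RT.Fam

/-!
# Positive definite integral functions on `ℤ` with value two at the origin
-/

set_option autoImplicit false

open Filter Topology
open scoped InnerProductSpace

namespace Pool.Agent.NH35.RT

variable {H : Type} [NormedAddCommGroup H] [InnerProductSpace ℝ H]

/-- The possible shapes. -/
def Shape (f : ℤ → ℤ) : Prop :=
  (∀ n, n ≠ 0 → f n = 0) ∨
  (∃ N : ℤ, 0 < N ∧ ∃ e : ℤ, (e = 1 ∨ e = -1) ∧
    ∀ n, n ≠ 0 → f n = if n = N ∨ n = -N then e else 0) ∨
  (∃ N : ℤ, 0 < N ∧ ∃ e : ℤ, (e = 1 ∨ e = -1) ∧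
    ∀ n, n ≠ 0 → f n = if N ∣ n then e ^ (n / N).natAbs else 0) ∨
  ∃ M : ℤ, 0 < M ∧ f M = 2 ∧ ∀ n, f (n + M) = f n

section
variable {v : ℤ → H} {f : ℤ → ℤ} (hv : ∀ i j, ⟪v i, v j⟫_ℝ = f (i - j)) (h0 : f 0 = 2)
include hv h0

theorem norm_v (k : ℤ) : ‖v k‖ ^ 2 = 2 := by
  have := norm_sq_of (hv k k)
  rw [this, sub_self, h0]; norm_num

theorem symm_f (n : ℤ) : f (-n) = f n := by
  have e1 := hv 0 n
  have e2 := hv n 0
  rw [real_inner_comm, e2] at e1
  have : f (n - 0) = f (0 - n) := by exact_mod_cast e1
  simpa using this.symm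

theorem abs_f (n : ℤ) : |f n| ≤ 2 := by
  have e := abs_real_inner_le_norm (v n) (v 0)
  have h1 := norm_v hv h0 n
  have h2 := norm_v hv h0 0
  rw [hv, sub_zero] at e
  have h3 : ‖v n‖ * ‖v 0‖ = 2 := by
    have : (‖v n‖ * ‖v 0‖) ^ 2 = 2 ^ 2 := by rw [mul_pow, h1, h2]; norm_num
    exact (pow_left_inj₀ (by positivity) (by norm_num) two_ne_zero).1 this
  rw [h3] at e
  exact_mod_cast e

/-- the case of a value of absolute value two -/
theorem periodic_of_two {n : ℤ} (hn : n ≠ 0) (h : |f n| = 2) :
    ∃ M : ℤ, 0 < M ∧ f M = 2 ∧ ∀ n, f (n + M) = f n := by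
  obtain ⟨e, he, hfe⟩ : ∃ e : ℤ, (e = 1 ∨ e = -1) ∧ f n = 2 * e := by
    rcases abs_eq (by norm_num : (0 : ℤ) ≤ 2) |>.1 h with h | h
    · exact ⟨1, Or.inl rfl, by omega⟩
    · exact ⟨-1, Or.inr rfl, by omega⟩
  have hee : e * e = 1 := by rcases he with rfl | rfl <;> norm_num
  have heeR : (e : ℝ) * e = 1 := by exact_mod_cast hee
  have hvn : ∀ k, v (k + n) = (e : ℝ) • v k := by
    intro k
    have h2 : ‖v (k + n) - (e : ℝ) • v k‖ ^ 2 = 0 := by
      rw [norm_sub_sq_real, inner_smul_right, hv, norm_smul, mul_pow, norm_v hv h0, norm_v hv h0]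
      have e1 : k + n - k = n := by ring
      rw [e1, hfe]
      have e2 : ‖(e : ℝ)‖ ^ 2 = 1 := by
        rw [Real.norm_eq_abs, sq_abs, sq]; exact heeR
      rw [e2]
      push_cast
      nlinarith
    have h3 := pow_eq_zero_iff (two_ne_zero) |>.1 h2
    rw [norm_eq_zero, sub_eq_zero] at h3
    exact h3
  have hvn2 : ∀ k, v (k + 2 * n) = v k := by
    intro k
    have e1 : k + 2 * n = (k + n) + n := by ring
    rw [e1, hvn, hvn, smul_smul, heeR, one_smul]
  have hper : ∀ k, f (k + 2 * n) = f k := by
    intro k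
    have e1 := hv (k + 2 * n) 0
    rw [hvn2, hv, sub_zero, sub_zero] at e1
    exact_mod_cast e1.symm
  have h2n : f (2 * n) = 2 := by
    have := hper 0
    rwa [zero_add, h0] at this
  rcases lt_or_gt_of_ne hn with h | h
  · refine ⟨-(2 * n), by omega, by rw [symm_f hv h0]; exact h2n, fun k => ?_⟩
    have := hper (k + -(2 * n))
    rw [← this]; congr 1; ring
  · exact ⟨2 * n, by omega, h2n, hper⟩

/-- the shape if there is a unit vector -/
theorem shape_of_unit {w : ℤ → H} {A C : ℤ → ℤ} (hwv : ∀ k i, ⟪w k, v i⟫_ℝ = A (i - k))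
    (hww : ∀ k l, ⟪w k, w l⟫_ℝ = C (k - l)) (hC0 : C 0 = 1) (hA0 : A 0 = 1) : Shape f := by
  have hvw : ∀ k i, ⟪v i, w k⟫_ℝ = A (i - k) := fun k i => by rw [real_inner_comm, hwv]
  have hCC := unit_toeplitz hww hC0
  have hwn : ∀ k, ‖w k‖ = 1 := by
    intro k
    have h2 := norm_sq_of (hww k k)
    rw [sub_self, hC0] at h2
    have h3 : ‖w k‖ ^ 2 = 1 := by rw [h2]; norm_num
    exact (pow_eq_one_iff_of_nonneg (norm_nonneg _) two_ne_zero).1 h3
  have hCs : ∀ n, C (-n) = C n := by
    intro n
    have e1 := hww 0 n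
    have e2 := hww n 0
    rw [real_inner_comm, e2] at e1
    have : C (n - 0) = C (0 - n) := by exact_mod_cast e1
    simpa using this.symm
  -- the complementary vectors
  set u : ℤ → H := fun n => v n - w n with hu
  set D : ℤ → ℤ := fun n => f n - A n - A (-n) + C n with hD
  have huu : ∀ k l, ⟪u k, u l⟫_ℝ = D (k - l) := by
    intro k l
    simp only [hu, hD, inner_sub_left, inner_sub_right, hv, hwv, hvw, hww]
    push_cast
    have : A (-(k - l)) = A (l - k) := by congr 1; ring
    rw [this]
    ring
  have hD0 : D 0 = 1 := by simp only [hD, neg_zero, h0, hA0, hC0]; norm_num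
  have hun : ∀ k, ‖u k‖ = 1 := by
    intro k
    have h2 := norm_sq_of (huu k k)
    rw [sub_self, hD0] at h2
    have h3 : ‖u k‖ ^ 2 = 1 := by rw [h2]; norm_num
    exact (pow_eq_one_iff_of_nonneg (norm_nonneg _) two_ne_zero).1 h3
  have huw : ∀ k l, ⟪u k, w l⟫_ℝ = ((A (k - l) - C (k - l) : ℤ) : ℝ) := by
    intro k l
    simp only [hu, inner_sub_left, hvw, hww]
    push_cast
    ring
  by_cases hAC : ∀ n, A n = C n
  · -- orthogonal case
    have hf : ∀ n, f n = C n + D n := by
      intro n
      simp only [hD, hAC, hCs]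
      ring
    have hDD := unit_toeplitz huu hD0
    rcases hCC with h1 | ⟨d, hd, η, hη, h1⟩
    · rcases hDD with h2 | ⟨d, hd, η, hη, h2⟩
      · left
        intro n hn
        rw [hf, h1 n hn, h2 n hn, add_zero]
      · right; right; left
        refine ⟨d, hd, η, hη, fun n hn => ?_⟩
        rw [hf, h1 n hn, h2 n, zero_add]
    · rcases hDD with h2 | ⟨d', hd', η', hη', h2⟩
      · right; right; left
        refine ⟨d, hd, η, hη, fun n hn => ?_⟩
        rw [hf, h1 n, h2 n hn, add_zero]
      · right; right; right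
        have key : ∀ (d η : ℤ) (G : ℤ → ℤ), 0 < d → (η = 1 ∨ η = -1) →
            (∀ n, G n = if d ∣ n then η ^ (n / d).natAbs else 0) →
            ∀ t n : ℤ, G (n + 2 * t * d) = G n := by
          intro d η G hd hη hG t n
          rw [hG, hG]
          have e1 : d ∣ n + 2 * t * d ↔ d ∣ n := by
            rw [dvd_add_left (Dvd.intro_left _ rfl)]
          by_cases h : d ∣ n
          · rw [if_pos h, if_pos (e1.2 h)]
            have e2 : (n + 2 * t * d) / d = n / d + 2 * t := by
              rw [Int.add_mul_ediv_right _ _ hd.ne']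
            rw [e2]
            rcases hη with rfl | rfl
            · simp
            · rcases Int.even_or_odd (n / d) with h3 | h3
              · rw [Even.neg_one_pow (Int.natAbs_even.2 (h3.add (even_two_mul t))),
                  Even.neg_one_pow (Int.natAbs_even.2 h3)]
              · rw [Odd.neg_one_pow (Int.natAbs_odd.2 (h3.add_even (even_two_mul t))),
                  Odd.neg_one_pow (Int.natAbs_odd.2 h3)]
          · rw [if_neg h, if_neg fun h2 => h (e1.1 h2)]
        have hper : ∀ n, f (n + 2 * d * d') = f n := by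
          intro n
          rw [hf, hf, key d' η' D hd' hη' h2 d n]
          have e3 : n + 2 * d * d' = n + 2 * d' * d := by ring
          rw [e3, key d η C hd hη h1 d' n]
        refine ⟨2 * d * d', by positivity, ?_, hper⟩
        have := hper 0
        rwa [zero_add, h0] at this
  · -- the sum of two
    push Not at hAC
    obtain ⟨k, hk⟩ := hAC
    set c : ℤ := A k - C k with hc
    have hck : ⟪u k, w 0⟫_ℝ = c := by rw [huw, sub_zero]
    have hcle : |c| ≤ 1 := by
      have e := abs_real_inner_le_norm (u k) (w 0)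
      rw [hck, hun, hwn, mul_one] at e
      exact_mod_cast e
    have hc0 : c ≠ 0 := sub_ne_zero.2 hk
    have hcc : c = 1 ∨ c = -1 := by
      have := abs_le.1 hcle
      omega
    have hccR : (c : ℝ) * c = 1 := by rcases hcc with h | h <;> rw [h] <;> norm_num
    have huk : ∀ n, u (n + k) = (c : ℝ) • w n := by
      intro n
      have h2 : ‖u (n + k) - (c : ℝ) • w n‖ ^ 2 = 0 := by
        rw [norm_sub_sq_real, inner_smul_right, huw, norm_smul, hun, hwn]
        have e : n + k - n = k := by ring
        rw [e, ← hc, Real.norm_eq_abs, mul_one, sq_abs, sq, sq, hccR]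
        ring
      have h3 := pow_eq_zero_iff (two_ne_zero) |>.1 h2
      rw [norm_eq_zero, sub_eq_zero] at h3
      exact h3
    have hvk : ∀ n, v (n + k) = w (n + k) + (c : ℝ) • w n := by
      intro n
      have := huk n
      simp only [hu] at this
      rw [← this]
      abel
    have hff : ∀ n, f n = 2 * C n + c * (C (n + k) + C (n - k)) := by
      intro n
      have e1 := hv (n + k) (0 + k)
      rw [hvk, hvk] at e1
      simp only [inner_add_left, inner_add_right, inner_smul_left, inner_smul_right, hww,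
        zero_add] at e1
      have e2 : n + k - k = n := by ring
      rw [e2, sub_zero, sub_zero] at e1
      simp only [conj_trivial] at e1
      have e3 : ((2 * C n + c * (C (n + k) + C (n - k)) : ℤ) : ℝ) = f n := by
        push_cast
        rw [← e1]
        linear_combination (-(C n : ℝ)) * hccR
      exact_mod_cast e3.symm
    have hk0 : k ≠ 0 := by
      rintro rfl
      exact hk (by rw [hA0, hC0])
    rcases hCC with h1 | ⟨d, hd, η, hη, h1⟩
    · right; left
      refine ⟨|k|, abs_pos.2 hk0, c, hcc, fun n hn => ?_⟩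
      have e0 : ∀ m, C m = if m = 0 then 1 else 0 := by
        intro m
        split_ifs with h
        · rw [h, hC0]
        · exact h1 m h
      rw [hff, e0, if_neg hn, e0, e0]
      have hor : (n = |k| ∨ n = -|k|) ↔ (n + k = 0 ∨ n - k = 0) := by
        rcases abs_choice k with h | h <;> rw [h] <;> omega
      by_cases h3 : n + k = 0
      · rw [if_pos h3, if_neg (by omega), if_pos (hor.2 (Or.inl h3))]
        ring
      · by_cases h4 : n - k = 0
        · rw [if_neg h3, if_pos h4, if_pos (hor.2 (Or.inr h4))]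
          ring
        · rw [if_neg h3, if_neg h4, if_neg fun h5 => (hor.1 h5).elim h3 h4]
          ring
    · right; right; right
      have hC2 : ∀ n, C (n + 2 * d) = C n := by
        intro n
        rw [h1, h1]
        have e1 : d ∣ n + 2 * d ↔ d ∣ n := by
          rw [dvd_add_left (Dvd.intro_left _ rfl)]
        by_cases h : d ∣ n
        · rw [if_pos h, if_pos (e1.2 h)]
          have e2 : (n + 2 * d) / d = n / d + 2 := by
            rw [Int.add_mul_ediv_right _ _ hd.ne']
          rw [e2]
          rcases hη with rfl | rfl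
          · simp
          · rcases Int.even_or_odd (n / d) with h3 | h3
            · rw [Even.neg_one_pow (Int.natAbs_even.2 (h3.add even_two)),
                Even.neg_one_pow (Int.natAbs_even.2 h3)]
            · rw [Odd.neg_one_pow (Int.natAbs_odd.2 (h3.add_even even_two)),
                Odd.neg_one_pow (Int.natAbs_odd.2 h3)]
        · rw [if_neg h, if_neg fun h2 => h (e1.1 h2)]
      have hper : ∀ n, f (n + 2 * d) = f n := by
        intro n
        rw [hff, hff, hC2]
        have e1 : n + 2 * d + k = (n + k) + 2 * d := by ring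
        have e2 : n + 2 * d - k = (n - k) + 2 * d := by ring
        rw [e1, e2, hC2, hC2]
      refine ⟨2 * d, by positivity, ?_, hper⟩
      have := hper 0
      rwa [zero_add, h0] at this

end

end Pool.Agent.NH35.RT
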