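import Pool.Agent.NH35.RT.Gns

/-!
# Stationary families of vectors with integral inner products
-/

set_option autoImplicit false

open Filter Topology
open scoped InnerProductSpace

namespace Pool.Agent.NH35.RT

variable {H : Type} [NormedAddCommGroup H] [InnerProductSpace ℝ H]

/-- limits of integers along an ultrafilter are integers -/
theorem int_lim {u : ℕ → ℤ} {x : ℝ} {U : Filter ℕ} [U.NeBot]
    (h : Tendsto (fun j => (u j : ℝ)) U (𝓝 x)) : ∃ n : ℤ, x = n := by
  have hcl : IsClosed (Set.range ((↑) : ℤ → ℝ)) := Int.isClosedEmbedding_coe_real.isClosed_range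
  have := hcl.mem_of_tendsto h (Filter.Eventually.of_forall fun j => Set.mem_range_self (u j))
  obtain ⟨n, hn⟩ := this
  exact ⟨n, hn.symm⟩

/-- a convergent sequence of integers is eventually constant -/
theorem int_event {u : ℕ → ℤ} {n : ℤ} {U : Filter ℕ}
    (h : Tendsto (fun j => (u j : ℝ)) U (𝓝 n)) : ∀ᶠ j in U, u j = n := by
  have h1 := h (Metric.ball_mem_nhds (n : ℝ) (by norm_num : (0 : ℝ) < 1))
  filter_upwards [h1] with j hj
  rw [Set.mem_preimage, Metric.mem_ball, Real.dist_eq, ← Int.cast_sub, ← Int.cast_abs] at hj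
  have h2 : |u j - n| < 1 := by exact_mod_cast hj
  have h3 := Int.abs_lt_one_iff.1 h2
  omega

theorem norm_sq_of {x : H} {n : ℤ} (h : ⟪x, x⟫_ℝ = n) : ‖x‖ ^ 2 = n := by
  rw [← real_inner_self_eq_norm_sq]; exact h

theorem exists_unit_family [CompleteSpace H] (v : ℤ → H) (y : ℕ → ℤ → H) (a : ℕ → ℤ → ℤ)
    (b : ℕ → ℕ → ℤ → ℤ) (hya : ∀ j k i, ⟪y j k, v i⟫_ℝ = a j (i - k))
    (hyb : ∀ j j' k k', ⟪y j k, y j' k'⟫_ℝ = b j j' (k - k'))
    (hnorm : ∀ j, b j j 0 = 2) (hone : ∀ j, a j 0 = 1)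
    (hdist : ∀ j j', j ≠ j' → y j 0 ≠ y j' 0) :
    ∃ (w : ℤ → H) (A C : ℤ → ℤ), (∀ k i, ⟪w k, v i⟫_ℝ = A (i - k)) ∧
      (∀ k l, ⟪w k, w l⟫_ℝ = C (k - l)) ∧ C 0 = 1 ∧ A 0 = 1 := by
  have hn2 : ∀ j k, ‖y j k‖ ^ 2 = 2 := by
    intro j k
    have := norm_sq_of (n := 2) (x := y j k) (by rw [hyb, sub_self, hnorm])
    rw [this]; norm_num
  have hnle : ∀ j k, ‖y j k‖ ≤ 2 := by
    intro j k
    nlinarith [hn2 j k, norm_nonneg (y j k)]
  choose w hw using fun k : ℤ => exists_weak (fun j => y j k) 2 fun j => hnle j k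
  -- integrality against `v`
  have hA1 : ∀ k i, ∃ n : ℤ, ⟪w k, v i⟫_ℝ = n := by
    intro k i
    have h := hw k (v i)
    simp only [hya] at h
    exact int_lim h
  have hA2 : ∀ k i k' i', i - k = i' - k' → ⟪w k, v i⟫_ℝ = ⟪w k', v i'⟫_ℝ := by
    intro k i k' i' hk
    have h := hw k (v i)
    have h' := hw k' (v i')
    simp only [hya] at h h'
    rw [hk] at h
    exact tendsto_nhds_unique h h'
  choose A0 hA0 using fun i : ℤ => hA1 0 i
  -- integrality against `y`
  have hB1 : ∀ k j l, ∃ n : ℤ, ⟪w k, y j l⟫_ℝ = n := by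
    intro k j l
    have h := hw k (y j l)
    simp only [hyb] at h
    exact int_lim h
  have hB2 : ∀ k j l k' l', k - l = k' - l' → ⟪w k, y j l⟫_ℝ = ⟪w k', y j l'⟫_ℝ := by
    intro k j l k' l' hk
    have h := hw k (y j l)
    have h' := hw k' (y j l')
    simp only [hyb] at h h'
    rw [hk] at h
    exact tendsto_nhds_unique h h'
  choose B0 hB0 using hB1
  have hwy : ∀ k l, Tendsto (fun j => (B0 l j k : ℝ)) (hyperfilter ℕ) (𝓝 ⟪w k, w l⟫_ℝ) := by
    intro k l
    have h := hw k (w l)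
    refine h.congr fun j => ?_
    rw [real_inner_comm, hB0]
  have hC1 : ∀ k l, ∃ n : ℤ, ⟪w k, w l⟫_ℝ = n := fun k l => int_lim (hwy k l)
  have hC2 : ∀ k l k' l', k - l = k' - l' → ⟪w k, w l⟫_ℝ = ⟪w k', w l'⟫_ℝ := by
    intro k l k' l' hk
    refine tendsto_nhds_unique (hwy k l) ((hwy k' l').congr fun j => ?_)
    rw [← hB0, ← hB0]
    exact hB2 _ _ _ _ _ (by omega)
  choose C0 hC0 using fun k : ℤ => hC1 k 0
  refine ⟨w, A0, C0, fun k i => ?_, fun k l => ?_, ?_, ?_⟩
  · rw [← hA0]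
    exact hA2 _ _ _ _ (by omega)
  · rw [← hC0]
    exact hC2 _ _ _ _ (by omega)
  · -- the norm
    have hv : ⟪w 0, v 0⟫_ℝ = 1 := by
      have h := hw 0 (v 0)
      simp only [hya, sub_zero, hone, Int.cast_one] at h
      exact tendsto_nhds_unique h tendsto_const_nhds
    have hw0 : w 0 ≠ 0 := by
      intro h
      rw [h, inner_zero_left] at hv
      exact zero_ne_one hv
    have hs := norm_sq_of (hC0 0)
    have hpos : (0 : ℝ) < C0 0 := by
      rw [← hs]
      have := norm_pos_iff.2 hw0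
      positivity
    have hpos' : 0 < C0 0 := by exact_mod_cast hpos
    have hup : ‖w 0‖ ^ 2 ≤ ‖w 0‖ * Real.sqrt 2 := by
      have h := hwy 0 0
      rw [real_inner_self_eq_norm_sq] at h
      refine le_of_tendsto h (Filter.Eventually.of_forall fun j => ?_)
      rw [← hB0]
      refine (real_inner_le_norm _ _).trans (mul_le_mul_of_nonneg_left ?_ (norm_nonneg _))
      rw [← hn2 j 0, Real.sqrt_sq (norm_nonneg _)]
    have hup2 : ‖w 0‖ ≤ Real.sqrt 2 := by
      have := norm_pos_iff.2 hw0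
      rw [sq] at hup
      exact le_of_mul_le_mul_left hup this
    have hle : C0 0 ≤ 2 := by
      have : ‖w 0‖ ^ 2 ≤ 2 := by
        calc ‖w 0‖ ^ 2 ≤ Real.sqrt 2 ^ 2 := pow_le_pow_left₀ (norm_nonneg _) hup2 2
          _ = 2 := Real.sq_sqrt (by norm_num)
      rw [hs] at this
      exact_mod_cast this
    by_contra hne
    have h2 : C0 0 = 2 := by omega
    have h3 := hwy 0 0
    rw [hC0 0, h2] at h3
    have h4 := int_event h3
    have h5 : ∀ j, B0 0 j 0 = 2 → y j 0 = w 0 := by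
      intro j hj
      have h6 : ‖w 0 - y j 0‖ ^ 2 = 0 := by
        rw [norm_sub_sq_real, hs, hn2, h2, hB0, hj]
        norm_num
      have h7 := pow_eq_zero_iff (two_ne_zero) |>.1 h6
      rw [norm_eq_zero, sub_eq_zero] at h7
      exact h7.symm
    have h6 : {j | B0 0 j 0 = 2}.Infinite := fun hf => by
      have h7 : {j | B0 0 j 0 = 2}ᶜ ∈ hyperfilter ℕ :=
        Filter.mem_hyperfilter_of_finite_compl (by rwa [compl_compl])
      have h8 := Filter.inter_mem h4 h7
      rw [show {j | B0 0 j 0 = 2} ∩ {j | B0 0 j 0 = 2}ᶜ = ∅ from Set.inter_compl_self _] at h8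
      exact Filter.empty_notMem _ h8
    obtain ⟨j, hj⟩ := h6.nonempty
    obtain ⟨j', hj', hjj⟩ := h6.exists_gt j
    exact hdist j j' (by omega) ((h5 j hj).trans (h5 j' hj').symm)
  · have h := hw 0 (v 0)
    simp only [hya, sub_zero, hone, Int.cast_one] at h
    have h2 := tendsto_nhds_unique h tendsto_const_nhds
    rw [hA0] at h2
    exact_mod_cast h2

/-- unit vectors with integral inner products -/
theorem unit_toeplitz {w : ℤ → H} {C : ℤ → ℤ} (hC : ∀ k l, ⟪w k, w l⟫_ℝ = C (k - l))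
    (h1 : C 0 = 1) : (∀ n, n ≠ 0 → C n = 0) ∨
      ∃ d : ℤ, 0 < d ∧ ∃ η : ℤ, (η = 1 ∨ η = -1) ∧ ∀ n, C n = if d ∣ n then η ^ (n / d).natAbs else 0 := by
  have hn : ∀ k, ‖w k‖ = 1 := by
    intro k
    have h2 := norm_sq_of (hC k k)
    rw [sub_self, h1] at h2
    have h3 : ‖w k‖ ^ 2 = 1 := by rw [h2]; norm_num
    exact (pow_eq_one_iff_of_nonneg (norm_nonneg _) two_ne_zero).1 h3
  have hsymm : ∀ n, C (-n) = C n := by
    intro n
    have e1 := hC 0 n
    have e2 := hC n 0
    rw [real_inner_comm, e2] at e1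
    have : C (n - 0) = C (0 - n) := by exact_mod_cast e1
    simpa using this.symm
  have habs : ∀ n, |C n| ≤ 1 := by
    intro n
    have e := abs_real_inner_le_norm (w n) (w 0)
    rw [hC, hn, hn, sub_zero] at e
    exact_mod_cast (by simpa using e : |(C n : ℝ)| ≤ 1)
  have hval : ∀ n, C n ≠ 0 → C n = 1 ∨ C n = -1 := by
    intro n h
    have := abs_le.1 (habs n)
    omega
  have hshift : ∀ d, C d ≠ 0 → ∀ k, w (k + d) = (C d : ℝ) • w k := by
    intro d hd k
    have h2 : ‖w (k + d) - (C d : ℝ) • w k‖ ^ 2 = 0 := by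
      rw [norm_sub_sq_real, inner_smul_right, hC, norm_smul, hn, hn]
      have e : k + d - k = d := by ring
      rw [e]
      rcases hval d hd with h | h <;> rw [h] <;> norm_num
    have h3 := pow_eq_zero_iff (two_ne_zero) |>.1 h2
    rw [norm_eq_zero, sub_eq_zero] at h3
    exact h3
  have hmul : ∀ d, C d ≠ 0 → ∀ n, C (n + d) = C d * C n := by
    intro d hd n
    have e1 := hC (n + d) 0
    rw [hshift d hd n, inner_smul_left, hC] at e1
    simp only [sub_zero] at e1
    have : ((C d * C n : ℤ) : ℝ) = C (n + d) := by push_cast; simpa using e1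
    exact_mod_cast this.symm
  by_cases hall : ∀ n, n ≠ 0 → C n = 0
  · exact Or.inl hall
  · right
    push Not at hall
    obtain ⟨n0, hn0, hn1⟩ := hall
    have hex : ∃ m : ℕ, 0 < m ∧ C m ≠ 0 := by
      refine ⟨n0.natAbs, Int.natAbs_pos.2 hn0, ?_⟩
      rcases Int.natAbs_eq n0 with h | h
      · rwa [← h]
      · rw [← hsymm, ← h]; exact hn1
    classical
    obtain ⟨hm0, hm1⟩ := Nat.find_spec hex
    set m := Nat.find hex with hm
    have hmin : ∀ k : ℕ, 0 < k → k < m → C k = 0 := by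
      intro k hk hkm
      by_contra h
      exact Nat.find_min hex hkm ⟨hk, h⟩
    refine ⟨m, by exact_mod_cast hm0, C m, hval _ hm1, ?_⟩
    -- powers
    have hpow : ∀ (k : ℕ) (r : ℤ), C (r + k * m) = C m ^ k * C r := by
      intro k r
      induction k with
      | zero => simp
      | succ k ih =>
        have e : r + ((k + 1 : ℕ) : ℤ) * m = (r + k * m) + m := by push_cast; ring
        rw [e, hmul _ hm1, ih, pow_succ]
        ring
    have hnn : ∀ n : ℤ, 0 ≤ n → C n = if (m : ℤ) ∣ n then C m ^ (n / m).natAbs else 0 := by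
      intro n hn
      have e : n = n % m + ((n / m).natAbs : ℤ) * m := by
        have h2 : 0 ≤ n / m := Int.ediv_nonneg hn (by positivity)
        rw [Int.natAbs_of_nonneg h2]
        have := Int.emod_add_ediv_mul n m
        linarith
      have hm0' : (0 : ℤ) < m := by exact_mod_cast hm0
      have hr0 := Int.emod_nonneg n hm0'.ne'
      have hr1 := Int.emod_lt_of_pos n hm0'
      have e2 : C n = C m ^ (n / m).natAbs * C (n % m) := by
        conv_lhs => rw [e]
        rw [hpow]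
      rw [e2]
      split_ifs with hd
      · rw [Int.emod_eq_zero_of_dvd hd, h1, mul_one]
      · have h3 : 0 < n % m := lt_of_le_of_ne hr0 fun h => hd (Int.dvd_of_emod_eq_zero h.symm)
        have h4 : C (n % m) = 0 := by
          have h5 : n % m = ((n % m).toNat : ℤ) := (Int.toNat_of_nonneg hr0).symm
          rw [h5]
          refine hmin _ (by omega) (by omega)
        rw [h4, mul_zero]
    intro n
    rcases le_or_gt 0 n with h | h
    · exact hnn n h
    · rw [← hsymm, hnn (-n) (by omega)]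
      have e1 : ((m : ℤ) ∣ -n) ↔ ((m : ℤ) ∣ n) := dvd_neg
      by_cases hd : (m : ℤ) ∣ n
      · rw [if_pos hd, if_pos (e1.2 hd), Int.neg_ediv_of_dvd hd, Int.natAbs_neg]
      · rw [if_neg hd, if_neg fun h2 => hd (e1.1 h2)]

end Pool.Agent.NH35.RT
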