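import Mathlib

/-!
# Hilbert spaces from positive definite functions on `ℤ`, and weak limits along an ultrafilter
-/

set_option autoImplicit false

open Filter Topology
open scoped InnerProductSpace

namespace Pool.Agent.NH35.RT

/-- A positive definite function on `ℤ` is given by vectors of a Hilbert space. -/
theorem exists_hilbert (f : ℤ → ℝ) (hs : ∀ n, f (-n) = f n)
    (hp : ∀ c : ℤ →₀ ℝ, 0 ≤ c.sum fun i x => c.sum fun j y => x * y * f (j - i)) :
    ∃ (H : Type) (_ : NormedAddCommGroup H) (_ : InnerProductSpace ℝ H) (_ : CompleteSpace H)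
      (v : ℤ → H), ∀ i j, ⟪v i, v j⟫_ℝ = f (i - j) := by
  let K : Matrix ℤ ℤ (ℝ →L[ℝ] ℝ) := .of fun i j => f (i - j) • ContinuousLinearMap.id ℝ ℝ
  have hK : K.PosSemidef := by
    have htf := (RKHS.posSemidef_tfae (K := K)).out 0 2
    refine htf.2 ⟨?_, fun vv => ?_⟩
    · ext i j
      simp only [Matrix.conjTranspose_apply, K, Matrix.of_apply]
      rw [ContinuousLinearMap.star_eq_adjoint]
      have h1 : f (j - i) = f (i - j) := by rw [← hs (i - j)]; congr 1; ring
      have h2 : ContinuousLinearMap.adjoint (ContinuousLinearMap.id ℝ ℝ) =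
          ContinuousLinearMap.id ℝ ℝ := by
        refine ((ContinuousLinearMap.eq_adjoint_iff _ _).2 fun x y => ?_).symm
        simp
      simp [h1, h2]
    · have h1 := hp vv
      have h2 : (vv.sum fun x w => vv.sum fun x' w' => ⟪K x' x w, w'⟫_ℝ) =
          vv.sum fun i x => vv.sum fun j y => x * y * f (j - i) := by
        refine Finsupp.sum_congr fun i _ => Finsupp.sum_congr fun j _ => ?_
        simp [K]
        ring
      rw [h2]
      exact h1
  have : Fact K.PosSemidef := ⟨hK⟩
  refine ⟨RKHS.OfKernel K, inferInstance, inferInstance, inferInstance,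
    fun i => RKHS.kerFun (RKHS.OfKernel K) i (1 : ℝ), fun i j => ?_⟩
  rw [RKHS.kerFun_inner, RKHS.kerFun_apply, RKHS.OfKernel.kernel_ofKernel]
  simp [K]

/-- Weak compactness of bounded sequences, along the hyperfilter. -/
theorem exists_weak {H : Type} [NormedAddCommGroup H] [InnerProductSpace ℝ H] [CompleteSpace H]
    (y : ℕ → H) (R : ℝ) (hy : ∀ j, ‖y j‖ ≤ R) :
    ∃ w : H, ∀ x, Tendsto (fun j => ⟪y j, x⟫_ℝ) (hyperfilter ℕ) (𝓝 ⟪w, x⟫_ℝ) := by
  let g : ℕ → WeakDual ℝ H := fun j => StrongDual.toWeakDual (InnerProductSpace.toDual ℝ H (y j))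
  have hc : IsCompact (StrongDual.toWeakDual '' Metric.closedBall (0 : StrongDual ℝ H) R) := by
    have := WeakDual.isCompact_closedBall (𝕜 := ℝ) (E := H) 0 R
    convert this using 1
    ext z
    constructor
    · rintro ⟨x, hx, rfl⟩
      exact hx
    · intro hz
      exact ⟨WeakDual.toStrongDual z, hz, rfl⟩
  have hg : ∀ j, g j ∈ StrongDual.toWeakDual '' Metric.closedBall (0 : StrongDual ℝ H) R := by
    intro j
    refine ⟨_, ?_, rfl⟩
    rw [mem_closedBall_zero_iff, LinearIsometryEquiv.norm_map]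
    exact hy j
  obtain ⟨φ, -, hφ⟩ := hc.ultrafilter_le_nhds ((hyperfilter ℕ).map g) (by
    rw [Ultrafilter.coe_map, le_principal_iff, mem_map]
    exact Filter.univ_mem' hg)
  refine ⟨(InnerProductSpace.toDual ℝ H).symm (WeakDual.toStrongDual φ), fun x => ?_⟩
  have h1 : Tendsto g (hyperfilter ℕ) (𝓝 φ) := hφ
  have h2 : Tendsto (fun j => g j x) (hyperfilter ℕ) (𝓝 (φ x)) :=
    ((WeakDual.eval_continuous x).tendsto φ).comp h1
  rw [InnerProductSpace.toDual_symm_apply]
  exact h2

end Pool.Agent.NH35.RT
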