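import Pool.Agent.NH35.RT.Class

/-!
# The classification of positive definite integral functions on `ℤ` with value two at the origin
-/

set_option autoImplicit false

open Filter Topology
open scoped InnerProductSpace

namespace Pool.Agent.NH35.RT

section
variable {H : Type} [NormedAddCommGroup H] [InnerProductSpace ℝ H] [CompleteSpace H]
  {v : ℤ → H} {f : ℤ → ℤ}

theorem shape_of_infinite (hv : ∀ i j, ⟪v i, v j⟫_ℝ = f (i - j)) (h0 : f 0 = 2)
    (h2 : ∀ n, n ≠ 0 → |f n| ≠ 2) {η : ℤ} (hη : η = 1 ∨ η = -1)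
    (hinf : {n | f n = η}.Infinite) : Shape f := by
  have hηη : (η : ℝ) * η = 1 := by rcases hη with h | h <;> rw [h] <;> norm_num
  have hηη' : η * η = 1 := by rcases hη with h | h <;> rw [h] <;> norm_num
  have hinj := hinf.natEmbedding
  set s : ℕ → ℤ := fun j => (hinj j : ℤ) with hs
  have hsf : ∀ j, f (s j) = η := fun j => (hinj j).2
  have hsi : ∀ j j', j ≠ j' → s j ≠ s j' := fun j j' h h' =>
    h (hinj.injective (Subtype.ext h'))
  suffices hfam : ∃ (w : ℤ → H) (A C : ℤ → ℤ), (∀ k i, ⟪w k, v i⟫_ℝ = A (i - k)) ∧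
      (∀ k l, ⟪w k, w l⟫_ℝ = C (k - l)) ∧ C 0 = 1 ∧ A 0 = 1 by
    obtain ⟨w, A, C, h3, h4, h5, h6⟩ := hfam
    exact shape_of_unit hv h0 h3 h4 h5 h6
  refine exists_unit_family v
    (fun j k => (η : ℝ) • v (s j + k)) (fun j m => η * f (s j - m))
    (fun j j' m => f (s j - s j' + m)) (fun j k i => ?_) (fun j j' k k' => ?_) (fun j => ?_)
    (fun j => ?_) (fun j j' hj he => ?_)
  · rw [inner_smul_left, hv]
    have e : s j + k - i = s j - (i - k) := by ring
    rw [e]
    simp
  · rw [inner_smul_left, inner_smul_right, hv]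
    have e : s j + k - (s j' + k') = s j - s j' + (k - k') := by ring
    rw [e]
    simp only [conj_trivial]
    rw [← mul_assoc, hηη, one_mul]
  · simp only [sub_self, add_zero, h0]
  · simp only [sub_zero, hsf, hηη']
  · simp only [add_zero] at he
    have h7 : v (s j) = v (s j') := by
      have := congrArg (fun x => (η : ℝ) • x) he
      simp only [smul_smul, hηη, one_smul] at this
      exact this
    have h8 := hv (s j) (s j')
    rw [h7, hv, sub_self, h0] at h8
    have h9 : f (s j - s j') = 2 := by exact_mod_cast h8.symm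
    exact h2 _ (sub_ne_zero.2 (hsi j j' hj)) (by rw [h9]; norm_num)

theorem sum_alt (e : ℤ) (he : e * e = 1) (g : ℤ → ℤ) (hg0 : g 0 = 2) (hg1 : g 1 = e)
    (hgs : ∀ n, g (-n) = g n) (hg2 : ∀ n, 2 ≤ n → g n = 0) (L : ℕ) :
    ∑ i ∈ Finset.range (L + 1), ∑ i' ∈ Finset.range (L + 1),
      (-e) ^ i * (-e) ^ i' * g ((i : ℤ) - i') = 2 := by
  have hee : ∀ i : ℕ, (-e) ^ i * (-e) ^ i = 1 := by
    intro i
    rw [← mul_pow]
    have : -e * -e = 1 := by linarith
    rw [this, one_pow]
  induction L with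
  | zero => simp [hg0]
  | succ L ih =>
    rw [Finset.sum_range_succ]
    have e1 : ∑ i ∈ Finset.range (L + 1), ∑ i' ∈ Finset.range (L + 1 + 1),
        (-e) ^ i * (-e) ^ i' * g ((i : ℤ) - i') =
        2 + ∑ i ∈ Finset.range (L + 1), (-e) ^ i * (-e) ^ (L + 1) * g ((i : ℤ) - (L + 1 : ℕ)) := by
      rw [← ih, ← Finset.sum_add_distrib]
      exact Finset.sum_congr rfl fun i _ => Finset.sum_range_succ _ _
    have e2 : ∑ i ∈ Finset.range (L + 1), (-e) ^ i * (-e) ^ (L + 1) * g ((i : ℤ) - (L + 1 : ℕ)) =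
        -1 := by
      rw [Finset.sum_eq_single L]
      · have h1 : (L : ℤ) - ((L + 1 : ℕ) : ℤ) = -1 := by push_cast; ring
        rw [h1, hgs, hg1, pow_succ, ← mul_assoc, hee]
        linarith
      · intro i hi hiL
        have h1 : i < L := by
          have := Finset.mem_range.1 hi
          omega
        have h2 : g ((i : ℤ) - (L + 1 : ℕ)) = 0 := by
          rw [← hgs]
          exact hg2 _ (by push_cast; omega)
        rw [h2, mul_zero]
      · intro h
        exact absurd (Finset.self_mem_range_succ L) h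
    have e3 : ∑ i' ∈ Finset.range (L + 1 + 1),
        (-e) ^ (L + 1) * (-e) ^ i' * g (((L + 1 : ℕ) : ℤ) - i') = -1 + 2 := by
      rw [Finset.sum_range_succ]
      congr 1
      · rw [← e2]
        refine Finset.sum_congr rfl fun i _ => ?_
        rw [← hgs]
        have : -(((L + 1 : ℕ) : ℤ) - i) = (i : ℤ) - (L + 1 : ℕ) := by ring
        rw [this]
        ring
      · rw [hee, sub_self, hg0]
        norm_num
    rw [e1, e2, e3]
    norm_num

theorem shape_of_finite (hv : ∀ i j, ⟪v i, v j⟫_ℝ = f (i - j)) (h0 : f 0 = 2)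
    {N e : ℤ} (hN : 0 < N) (he : e = 1 ∨ e = -1) (hfN : f N = e)
    (hmax : ∀ n, N < n → f n = 0) : Shape f := by
  have hee : e * e = 1 := by rcases he with h | h <;> rw [h] <;> norm_num
  have hs := symm_f hv h0
  set g : ℤ → ℤ := fun t => f (t * N) with hg
  have hg0 : g 0 = 2 := by simp only [hg, zero_mul, h0]
  have hg1 : g 1 = e := by simp only [hg, one_mul, hfN]
  have hgs : ∀ n, g (-n) = g n := fun n => by
    simp only [hg]
    rw [neg_mul, hs]
  have hg2 : ∀ n, 2 ≤ n → g n = 0 := fun n hn => hmax _ (by nlinarith)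
  have hg2' : ∀ n, n ≤ -2 → g n = 0 := fun n hn => by
    rw [← hgs]
    exact hg2 _ (by omega)
  let y : ℕ → ℤ → H := fun j k => ∑ i ∈ Finset.range (j + 2), ((-e : ℤ) : ℝ) ^ i • v (k + i * N)
  suffices hfam : ∃ (w : ℤ → H) (A C : ℤ → ℤ), (∀ k i, ⟪w k, v i⟫_ℝ = A (i - k)) ∧
      (∀ k l, ⟪w k, w l⟫_ℝ = C (k - l)) ∧ C 0 = 1 ∧ A 0 = 1 by
    obtain ⟨w, A, C, h3, h4, h5, h6⟩ := hfam
    exact shape_of_unit hv h0 h3 h4 h5 h6
  refine exists_unit_family v y
    (fun j m => ∑ i ∈ Finset.range (j + 2), (-e) ^ i * f (i * N - m))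
    (fun j j' m => ∑ i ∈ Finset.range (j + 2), ∑ i' ∈ Finset.range (j' + 2),
      (-e) ^ i * (-e) ^ i' * f (m + ((i : ℤ) - i') * N)) (fun j k l => ?_) (fun j j' k k' => ?_)
    (fun j => ?_) (fun j => ?_) (fun j j' hj hyy => ?_)
  · simp only [y]
    rw [sum_inner]
    push_cast
    refine Finset.sum_congr rfl fun i _ => ?_
    rw [inner_smul_left, hv]
    have e1 : k + i * N - l = i * N - (l - k) := by ring
    rw [e1]
    simp
  · simp only [y]
    rw [sum_inner]
    push_cast
    refine Finset.sum_congr rfl fun i _ => ?_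
    rw [inner_sum]
    refine Finset.sum_congr rfl fun i' _ => ?_
    rw [inner_smul_left, inner_smul_right, hv]
    have e1 : k + i * N - (k' + i' * N) = k - k' + ((i : ℤ) - i') * N := by ring
    rw [e1]
    simp
    ring
  · have := sum_alt e hee g hg0 hg1 hgs hg2 (j + 1)
    simpa [hg] using this
  · rw [Finset.sum_range_succ', Finset.sum_range_succ']
    have e1 : ∑ i ∈ Finset.range j, (-e) ^ (i + 1 + 1) * f (((i + 1 + 1 : ℕ) : ℤ) * N - 0) = 0 := by
      refine Finset.sum_eq_zero fun i _ => ?_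
      have : f (((i + 1 + 1 : ℕ) : ℤ) * N - 0) = 0 := by
        rw [sub_zero]
        exact hg2 _ (by push_cast; omega)
      rw [this, mul_zero]
    rw [e1]
    simp [h0, hfN]
    linarith
  · -- distinct
    wlog hlt : j < j' generalizing j j'
    · exact this j' j (Ne.symm hj) hyy.symm (by omega)
    have hin : ∀ j : ℕ, ∀ t : ℤ, ⟪y j 0, v (t * N)⟫_ℝ =
        ((∑ i ∈ Finset.range (j + 2), (-e) ^ i * g (i - t) : ℤ) : ℝ) := by
      intro j t
      simp only [y]
      rw [sum_inner]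
      push_cast
      refine Finset.sum_congr rfl fun i _ => ?_
      rw [inner_smul_left, hv]
      have e1 : 0 + (i : ℤ) * N - t * N = (i - t) * N := by ring
      rw [e1]
      simp [hg]
    have ha : ∑ i ∈ Finset.range (j + 2), (-e) ^ i * g ((i : ℤ) - ((j' : ℤ) + 2)) = 0 := by
      refine Finset.sum_eq_zero fun i hi => ?_
      have h1 := Finset.mem_range.1 hi
      rw [hg2' _ (by omega), mul_zero]
    have hb : ∑ i ∈ Finset.range (j' + 2), (-e) ^ i * g ((i : ℤ) - ((j' : ℤ) + 2)) =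
        (-e) ^ (j' + 1) * e := by
      rw [Finset.sum_range_succ, Finset.sum_eq_zero, zero_add]
      · congr 1
        have : ((j' + 1 : ℕ) : ℤ) - ((j' : ℤ) + 2) = -1 := by push_cast; ring
        rw [this, hgs, hg1]
      · intro i hi
        have h1 := Finset.mem_range.1 hi
        rw [hg2' _ (by omega), mul_zero]
    have h1 := hin j ((j' : ℤ) + 2)
    have h2 := hin j' ((j' : ℤ) + 2)
    rw [hyy, h2, ha, hb] at h1
    have h3 : (-e) ^ (j' + 1) * e = 0 := by exact_mod_cast h1
    rcases he with h | h <;> rw [h] at h3 <;> simp at h3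

/-- **Classification.** -/
theorem shape_of_vectors (hv : ∀ i j, ⟪v i, v j⟫_ℝ = f (i - j)) (h0 : f 0 = 2) : Shape f := by
  by_cases h2 : ∃ n, n ≠ 0 ∧ |f n| = 2
  · obtain ⟨n, hn, h⟩ := h2
    exact Or.inr (Or.inr (Or.inr (periodic_of_two hv h0 hn h)))
  push Not at h2
  have habs : ∀ n, n ≠ 0 → f n = 0 ∨ f n = 1 ∨ f n = -1 := by
    intro n hn
    have h3 := abs_le.1 (abs_f hv h0 n)
    have h4 := h2 n hn
    have h5 : f n ≠ 2 := fun h => h4 (by rw [h]; norm_num)
    have h6 : f n ≠ -2 := fun h => h4 (by rw [h]; norm_num)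
    omega
  by_cases hi1 : {n | f n = 1}.Infinite
  · exact shape_of_infinite hv h0 h2 (Or.inl rfl) hi1
  by_cases hi2 : {n | f n = -1}.Infinite
  · exact shape_of_infinite hv h0 h2 (Or.inr rfl) hi2
  rw [Set.not_infinite] at hi1 hi2
  by_cases hall : ∀ n, n ≠ 0 → f n = 0
  · exact Or.inl hall
  push Not at hall
  obtain ⟨n0, hn0, hfn0⟩ := hall
  have hfin : {n : ℤ | 0 < n ∧ f n ≠ 0}.Finite := by
    refine (hi1.union hi2).subset fun n hn => ?_
    rcases habs n hn.1.ne' with h | h | h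
    · exact absurd h hn.2
    · exact Or.inl h
    · exact Or.inr h
  have hne : {n : ℤ | 0 < n ∧ f n ≠ 0}.Nonempty := by
    rcases lt_or_gt_of_ne hn0 with h | h
    · exact ⟨-n0, by omega, by rwa [symm_f hv h0]⟩
    · exact ⟨n0, h, hfn0⟩
  obtain ⟨N, hN, hmax⟩ := hfin.exists_maximalFor id _ hne
  refine shape_of_finite hv h0 hN.1 ?_ rfl fun n hn => ?_
  · rcases habs N hN.1.ne' with h | h | h
    · exact absurd h hN.2
    · exact Or.inl h
    · exact Or.inr h
  · by_contra h
    have h1 : (0 : ℤ) < n := lt_trans hN.1 hn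
    have := hmax (j := n) ⟨h1, h⟩ hn.le
    simp only [id] at this
    omega

end

/-- **Classification of the positive definite functions.** -/
theorem shape_of_posDef {f : ℤ → ℤ} (hs : ∀ n, f (-n) = f n) (h0 : f 0 = 2)
    (hp : ∀ c : ℤ →₀ ℝ, 0 ≤ c.sum fun i x => c.sum fun j y => x * y * (f (j - i) : ℝ)) :
    Shape f := by
  obtain ⟨H, _, _, _, v, hv⟩ := exists_hilbert (fun n => (f n : ℝ)) (fun n => by rw [hs]) hp
  exact shape_of_vectors hv h0

end Pool.Agent.NH35.RT
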