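import Pool.Agent.NH35.RT.Traces
import Pool.Agent.NH35.RT.Main

/-!
# The limits of the means of `2 cos (2 k θ_v)`
-/

set_option autoImplicit false

open NumberField IsDedekindDomain Filter Topology Polynomial

namespace Pool.Agent.NH35.RT

open Pool.Agent.Y149.WR
open Pool.Agent.W401.Cheb Pool.Agent.W540.BE
open Pool.Agent.W353.L1
open Pool.Agent.W353.EF (size LFun)
open Pool.Agent.H341R2 (lam lam_tendsto)
open Pool.Agent.Y149.Ord (HasOrder)
open Pool.Agent.Y722.EP (EP_fin)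

variable {K : Type} [Field K] [NumberField K] {l : ℕ} {X : Set (MvPolynomial (Fin l) (𝓞 K))}
  {d : ℕ} {N : ℕ → ℕ} {y₁ y₂ : Letter d N}

/-- the means of the functions `phi` -/
noncomputable def mean (X : Set (MvPolynomial (Fin l) (𝓞 K))) {d : ℕ} {N : ℕ → ℕ}
    (y₁ y₂ : Letter d N) (k : ℤ) (ε : ℝ) : ℝ :=
  EP (nm K) ε (phi X y₁ y₂ k) / lam ε

theorem mean_zero : Tendsto (mean X y₁ y₂ 0) (𝓝[>] 0) (𝓝 2) := by
  have h := (EP_one K).const_mul 2
  rw [mul_one] at h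
  refine h.congr fun ε => ?_
  unfold mean
  have e : phi X y₁ y₂ 0 = fun _ => 2 * 1 := by
    funext v
    rw [phi_zero, mul_one]
  rw [e, EP_const_mul]
  ring

theorem mean_neg (h : Pair d N y₁ y₂) (k : ℤ) (ε : ℝ) :
    mean X y₁ y₂ (-k) ε = mean X y₁ y₂ k ε := by
  unfold mean
  rw [show phi X y₁ y₂ (-k) = phi X y₁ y₂ k from funext fun v => phi_neg h k v]

/-- the mean of the traces on the cohomology of `X^n` -/
theorem mt_mean (h : Pair d N y₁ y₂)
    (hx : ∀ᶠ v : HeightOneSpectrum (𝓞 K) in cofinite, ∃ x, GoodEig X y₁ y₂ v x) (n m : ℕ) :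
    Tendsto (fun ε : ℝ =>
      (EP (nm K) ε fun v => Pool.Agent.Y149.WR.mt X d N n (2 * m) ⊥ v) / lam ε -
      (count d N n (2 * m) 0 * ((EP (nm K) ε fun _ => 1) / lam ε) +
        ∑ k ∈ Finset.Icc 1 n, count d N n (2 * m) (2 * k) * mean X y₁ y₂ k ε)) (𝓝[>] 0)
      (𝓝 0) := by
  have hN : NormSys (nm K) := normSys
  set c : ℤ → ℝ := fun k => count d N n (2 * m) k with hc
  have hc0 : ∀ k, 0 ≤ c k := fun k => Nat.cast_nonneg _
  set ψ : HeightOneSpectrum (𝓞 K) → ℝ := fun v =>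
    ∑ k ∈ Finset.Icc 1 n, c (2 * k) * phi X y₁ y₂ k v with hψ
  set χ : HeightOneSpectrum (𝓞 K) → ℝ := fun v => c 0 * 1 + ψ v with hχ
  have hb1 : ∀ v, |Pool.Agent.Y149.WR.mt X d N n (2 * m) ⊥ v| ≤ betti d N n (2 * m) :=
    fun v => abs_mt _ v
  have hbk : ∀ k ∈ Finset.Icc 1 n, ∀ v, |c (2 * k) * phi X y₁ y₂ k v| ≤ c (2 * k) * 2 := by
    intro k _ v
    rw [abs_mul, abs_of_nonneg (hc0 _)]
    exact mul_le_mul_of_nonneg_left (phi_abs h _ v) (hc0 _)
  have hbψ : ∀ v, |ψ v| ≤ ∑ k ∈ Finset.Icc 1 n, c (2 * k) * 2 := fun v =>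
    (Finset.abs_sum_le_sum_abs _ _).trans (Finset.sum_le_sum fun k hk => hbk k hk v)
  have hb0 : ∀ _ : HeightOneSpectrum (𝓞 K), |c 0 * 1| ≤ c 0 := fun v => by
    rw [mul_one, abs_of_nonneg (hc0 _)]
  have hbχ : ∀ v, |χ v| ≤ c 0 + ∑ k ∈ Finset.Icc 1 n, c (2 * k) * 2 := fun v =>
    (abs_add_le _ _).trans (add_le_add (hb0 v) (hbψ v))
  have hbχ' : ∀ v, |(-1) * χ v| ≤ c 0 + ∑ k ∈ Finset.Icc 1 n, c (2 * k) * 2 := fun v => by
    rw [abs_mul, abs_neg, abs_one, one_mul]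
    exact hbχ v
  have h0 := EP_fin (K := K)
    (φ := fun v => Pool.Agent.Y149.WR.mt X d N n (2 * m) ⊥ v + (-1) * χ v)
    (B := betti d N n (2 * m) + (c 0 + ∑ k ∈ Finset.Icc 1 n, c (2 * k) * 2))
    (fun v => (abs_add_le _ _).trans (add_le_add (hb1 v) (hbχ' v))) (by
      refine hx.mono fun v hv => ?_
      rw [mt_words h n m hv]
      simp only [hχ, hψ, hc]
      ring)
  refine h0.congr' ?_
  filter_upwards [self_mem_nhdsWithin] with ε hε
  have hε' : (0 : ℝ) < ε := hε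
  rw [EP_add hN hε' hb1 hbχ', EP_const_mul, hχ, EP_add hN hε' hb0 hbψ, EP_const_mul, hψ,
    EP_sum hN hε' (Finset.Icc 1 n) (fun k v => c (2 * k) * phi X y₁ y₂ k v)
      (fun k => c (2 * k) * 2) hbk]
  simp only [EP_const_mul]
  unfold mean
  have e5 : ∀ k ∈ Finset.Icc 1 n, (count d N n (2 * m) (2 * (k : ℤ)) : ℝ) *
      (EP (nm K) ε (phi X y₁ y₂ k) / lam ε) =
      (c (2 * k) * EP (nm K) ε (phi X y₁ y₂ k)) / lam ε := fun k _ => by
    simp only [hc]
    ring
  rw [Finset.sum_congr rfl e5, ← Finset.sum_div]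
  simp only [hc]
  ring

/-- the limit of the sizes from the limits of the means -/
theorem size_lim (h : Pair d N y₁ y₂)
    (hx : ∀ᶠ v : HeightOneSpectrum (𝓞 K) in cofinite, ∃ x, GoodEig X y₁ y₂ v x) {n m M : ℕ}
    {B : HeightOneSpectrum (𝓞 K) → ℂ[X]}
    (hB : IsQuotient X d N (⊥ : Subgroup (Equiv.Perm (Fin n))) (2 * m) M B) {f : ℤ → ℝ}
    (hf : ∀ k ∈ Finset.Icc 1 n, Tendsto (mean X y₁ y₂ k) (𝓝[>] 0) (𝓝 (f k))) :
    Tendsto (size (2 * m) B) (𝓝[>] 0) (𝓝 (count d N n (2 * m) 0 +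
      ∑ k ∈ Finset.Icc 1 n, count d N n (2 * m) (2 * k) * f k)) := by
  have h1 := (mt_mean h hx n m).sub (size_quotient hB).2
  have h2 : Tendsto (fun ε : ℝ => count d N n (2 * m) 0 * ((EP (nm K) ε fun _ => 1) / lam ε) +
      ∑ k ∈ Finset.Icc 1 n, count d N n (2 * m) (2 * k) * mean X y₁ y₂ k ε) (𝓝[>] 0)
      (𝓝 (count d N n (2 * m) 0 * 1 +
        ∑ k ∈ Finset.Icc 1 n, count d N n (2 * m) (2 * k) * f k)) :=
    ((EP_one K).const_mul _).add (tendsto_finsetSum _ fun k hk => (hf k hk).const_mul _)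
  have h3 := h1.add h2
  rw [sub_zero, zero_add, mul_one] at h3
  refine h3.congr fun ε => ?_
  ring

/-- the orders exist: the means have integral limits -/
theorem exists_limits (h : Pair d N y₁ y₂)
    (hx : ∀ᶠ v : HeightOneSpectrum (𝓞 K) in cofinite, ∃ x, GoodEig X y₁ y₂ v x)
    (hord : ∀ k : ℕ, 1 ≤ k → ∃ (M : ℕ) (B : HeightOneSpectrum (𝓞 K) → ℂ[X]) (r : ℤ),
      IsQuotient X d N (⊥ : Subgroup (Equiv.Perm (Fin (2 * k)))) (2 * (k * (y₁.1 : ℕ))) M B ∧
        HasOrder (2 * (k * (y₁.1 : ℕ))) B r) :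
    ∃ f : ℤ → ℤ, (∀ k, f (-k) = f k) ∧ f 0 = 2 ∧
      ∀ k, Tendsto (mean X y₁ y₂ k) (𝓝[>] 0) (𝓝 (f k : ℝ)) := by
  have key : ∀ k : ℕ, ∃ r : ℤ, Tendsto (mean X y₁ y₂ k) (𝓝[>] 0) (𝓝 (r : ℝ)) := by
    intro k
    induction k using Nat.strong_induction_on with
    | _ k ih =>
      rcases Nat.eq_zero_or_pos k with rfl | hk
      · exact ⟨2, by exact_mod_cast mean_zero⟩
      · choose! g hg using ih
        obtain ⟨M, B, r, hB, hr⟩ := hord k hk
        set a : ℕ := (y₁.1 : ℕ) with ha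
        have h1 := mt_mean h hx (2 * k) (k * a)
        have h2 := (size_quotient hB).2
        have h3 := ord_lim (size_quotient hB).1 hr
        set c : ℤ → ℕ := count d N (2 * k) (2 * (k * a)) with hc
        have htop : c (2 * k) = 1 := by
          have := h.count_top (n := 2 * k)
          rw [← ha, mul_assoc] at this
          simp only [hc]
          push_cast at this
          exact this
        have hbig : ∀ j : ℕ, k < j → c (2 * j) = 0 := fun j hj => count_big (by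
          push_cast
          omega)
        have hS : ∀ ε, ∑ j ∈ Finset.Icc 1 (2 * k), (c (2 * j) : ℝ) * mean X y₁ y₂ j ε =
            mean X y₁ y₂ k ε + ∑ j ∈ Finset.Ico 1 k, (c (2 * j) : ℝ) * mean X y₁ y₂ j ε := by
          intro ε
          have e1 : Finset.Icc 1 k ⊆ Finset.Icc 1 (2 * k) :=
            Finset.Icc_subset_Icc_right (by omega)
          rw [← Finset.sum_subset e1 fun j hj hj' => by
            rw [Finset.mem_Icc] at hj hj'
            rw [hbig j (by omega), Nat.cast_zero, zero_mul], ← Finset.Ico_insert_right hk,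
            Finset.sum_insert (by simp), htop, Nat.cast_one, one_mul]
        have h4 : Tendsto (fun ε : ℝ => (c 0 : ℝ) * ((EP (nm K) ε fun _ => 1) / lam ε) +
            ∑ j ∈ Finset.Ico 1 k, (c (2 * j) : ℝ) * mean X y₁ y₂ j ε) (𝓝[>] 0)
            (𝓝 ((c 0 : ℝ) * 1 + ∑ j ∈ Finset.Ico 1 k, (c (2 * j) : ℝ) * (g j : ℝ))) :=
          ((EP_one K).const_mul _).add (tendsto_finsetSum _ fun j hj =>
            (hg j (Finset.mem_Ico.1 hj).2).const_mul _)
        refine ⟨-r - (c 0 + ∑ j ∈ Finset.Ico 1 k, (c (2 * j) : ℤ) * g j), ?_⟩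
        have h5 := ((h2.add h3).sub h1).sub h4
        have e2 : (((-r - (c 0 + ∑ j ∈ Finset.Ico 1 k, (c (2 * j) : ℤ) * g j) : ℤ)) : ℝ) =
            0 + -(r : ℝ) - 0 -
              ((c 0 : ℝ) * 1 + ∑ j ∈ Finset.Ico 1 k, (c (2 * j) : ℝ) * (g j : ℝ)) := by
          push_cast
          ring
        rw [e2]
        refine h5.congr fun ε => ?_
        rw [hS]
        ring
  choose g hg using key
  refine ⟨fun k => if k = 0 then 2 else g k.natAbs, fun k => ?_, by simp, fun k => ?_⟩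
  · simp
  · by_cases hk : k = 0
    · subst hk
      simpa using mean_zero (X := X) (y₁ := y₁) (y₂ := y₂)
    · simp only [if_neg hk]
      rcases Int.natAbs_eq k with h1 | h1
      · have := hg k.natAbs
        rw [← h1] at this
        exact this
      · have := hg k.natAbs
        refine this.congr fun ε => ?_
        rw [← mean_neg h, ← h1]

end Pool.Agent.NH35.RT
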