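import Pool.Agent.NH35.RT.Rigid

/-!
# The orders of the `L`-functions of all powers
-/

set_option autoImplicit false

open NumberField IsDedekindDomain Filter Topology Polynomial

namespace Pool.Agent.NH35.RT

open Pool.Agent.Y149.WR
open Pool.Agent.W401.Cheb Pool.Agent.W540.BE
open Pool.Agent.W353.EF (size LFun)
open Pool.Agent.Y149.Ord (HasOrder)

variable {K : Type} [Field K] [NumberField K] {l : ℕ}

/-- `R n m` is the order of the pole of `L(H^{2m}(X^n), s)` at `s = m + 1`, for all `n` and `m`: if the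
order exists it is `-R n m`, and in any case `log |L(m + 1 + ε)| / log (1/ε)` tends to `R n m`. -/
def IsPoleTable (X : Set (MvPolynomial (Fin l) (𝓞 K))) (d : ℕ) (N : ℕ → ℕ)
    (R : ℕ → ℕ → ℤ) : Prop :=
  ∀ (n m M : ℕ) (B : HeightOneSpectrum (𝓞 K) → ℂ[X]),
    IsQuotient X d N (⊥ : Subgroup (Equiv.Perm (Fin n))) (2 * m) M B →
      Tendsto (size (2 * m) B) (𝓝[>] 0) (𝓝 (R n m : ℝ)) ∧
      ∀ r : ℤ, HasOrder (2 * m) B (-r) → r = R n m

/-- The eigenvalues of Frobenius in odd degree are asymptotically torsion: for every `δ > 0` the primes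
`v` with `|x(y)^{2M} / q_v^{a M} - 1| ≥ δ` for a letter `y` of odd degree `a` have density zero. -/
def AlmostTorsion (X : Set (MvPolynomial (Fin l) (𝓞 K))) (d : ℕ) (N : ℕ → ℕ) (M : ℕ) : Prop :=
  ∀ δ : ℝ, 0 < δ → DensityZero {v : HeightOneSpectrum (𝓞 K) |
    ∃ (x : Letter d N → ℂ) (y : Letter d N), IsEigen X d N v x ∧ Odd (y.1 : ℕ) ∧
      δ ≤ ‖x y ^ (2 * M) / (Ideal.absNorm v.asIdeal : ℂ) ^ ((y.1 : ℕ) * M) - 1‖}

/-- The number `f(0)/2 · #{weight 0} + ∑_{k ≥ 1} f(k) #{weight 2k}` for the words of length `n` and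
degree `2m`, with `f(0) = 2`. -/
noncomputable def tableOf (d : ℕ) (N : ℕ → ℕ) (f : ℤ → ℤ) (n m : ℕ) : ℤ :=
  count d N n (2 * m) 0 + ∑ k ∈ Finset.Icc 1 n, f k * count d N n (2 * m) (2 * k)

theorem tableOf_congr {d : ℕ} {N : ℕ → ℕ} {f g : ℤ → ℤ} (h : ∀ k, 0 < k → f k = g k)
    (n m : ℕ) : tableOf d N f n m = tableOf d N g n m := by
  unfold tableOf
  congr 1
  refine Finset.sum_congr rfl fun k hk => ?_
  rw [h k (by exact_mod_cast (Finset.mem_Icc.1 hk).1)]

theorem tableOf_zero {d : ℕ} {N : ℕ → ℕ} (n m : ℕ) :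
    tableOf d N (fun _ => 0) n m = count d N n (2 * m) 0 := by
  unfold tableOf
  simp

theorem tableOf_single {d : ℕ} {N : ℕ → ℕ} {D : ℕ} (hD : 0 < D) (e : ℤ) (n m : ℕ) :
    tableOf d N (fun k => if k = D then e else 0) n m =
      count d N n (2 * m) 0 + e * count d N n (2 * m) (2 * D) := by
  unfold tableOf
  beta_reduce
  congr 1
  by_cases h : D ∈ Finset.Icc 1 n
  · rw [Finset.sum_eq_single D (fun k _ hk => by
      rw [if_neg (by exact_mod_cast hk), zero_mul]) (fun h' => absurd h h'), if_pos rfl]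
  · rw [Finset.mem_Icc] at h
    rw [count_big (by omega : (n : ℤ) < 2 * D), Nat.cast_zero, mul_zero]
    refine Finset.sum_eq_zero fun k hk => ?_
    rw [Finset.mem_Icc] at hk
    rw [if_neg (by omega), zero_mul]

theorem tableOf_multiples {d : ℕ} {N : ℕ → ℕ} {D : ℕ} (hD : 0 < D) (e : ℤ) (n m : ℕ) :
    tableOf d N (fun k => if (D : ℤ) ∣ k then e ^ (k / D).natAbs else 0) n m =
      count d N n (2 * m) 0 +
        ∑ j ∈ Finset.Icc 1 n, e ^ j * count d N n (2 * m) (2 * D * j) := by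
  unfold tableOf
  beta_reduce
  congr 1
  have hinj : Set.InjOn (fun j : ℕ => D * j) (Finset.Icc 1 n : Finset ℕ) :=
    fun a _ b _ h => Nat.eq_of_mul_eq_mul_left hD h
  have hD' : (D : ℤ) ≠ 0 := by exact_mod_cast hD.ne'
  have e1 : ∀ j ∈ Finset.Icc 1 n, e ^ j * (count d N n (2 * m) (2 * D * j) : ℤ) =
      (if (D : ℤ) ∣ ((D * j : ℕ) : ℤ) then e ^ ((((D * j : ℕ)) : ℤ) / D).natAbs else 0) *
        (count d N n (2 * m) (2 * ((D * j : ℕ) : ℤ)) : ℤ) := by
    intro j _
    rw [if_pos (by push_cast; exact dvd_mul_right _ _)]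
    push_cast
    rw [Int.mul_ediv_cancel_left _ hD', Int.natAbs_natCast, mul_assoc]
  rw [Finset.sum_congr rfl e1, ← Finset.sum_image
    (f := fun k : ℕ => (if (D : ℤ) ∣ (k : ℤ) then e ^ ((k : ℤ) / D).natAbs else 0) *
        (count d N n (2 * m) (2 * (k : ℤ)) : ℤ)) hinj]
  set U := Finset.Icc 1 n with hU
  set V := Finset.image (fun j : ℕ => D * j) U with hV
  have hz1 : ∀ k ∈ U, k ∉ U ∩ V → (if (D : ℤ) ∣ (k : ℤ) then e ^ ((k : ℤ) / D).natAbs else 0) *
        (count d N n (2 * m) (2 * (k : ℤ)) : ℤ) = 0 := by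
    intro k hk hk'
    rw [if_neg, zero_mul]
    intro hdvd
    have hdvd' : D ∣ k := by exact_mod_cast hdvd
    obtain ⟨j, rfl⟩ := hdvd'
    rw [hU, Finset.mem_Icc] at hk
    refine hk' (Finset.mem_inter.2 ⟨by rw [hU, Finset.mem_Icc]; exact hk,
      Finset.mem_image.2 ⟨j, ?_, rfl⟩⟩)
    rw [Finset.mem_Icc]
    constructor
    · by_contra hj
      have : j = 0 := by omega
      subst this
      omega
    · exact le_trans (Nat.le_mul_of_pos_left j hD) hk.2
  have hz2 : ∀ k ∈ V, k ∉ U ∩ V → (if (D : ℤ) ∣ (k : ℤ) then e ^ ((k : ℤ) / D).natAbs else 0) *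
        (count d N n (2 * m) (2 * (k : ℤ)) : ℤ) = 0 := by
    intro k hk hk'
    obtain ⟨j, hj, hjk⟩ := Finset.mem_image.1 hk
    rw [Finset.mem_Icc] at hj
    have h0 : 0 < k := by
      rw [← hjk]
      exact Nat.mul_pos hD hj.1
    have hbig : n < k := by
      by_contra hcon
      exact hk' (Finset.mem_inter.2 ⟨Finset.mem_Icc.2 ⟨h0, by omega⟩, hk⟩)
    rw [count_big (by omega), Nat.cast_zero, mul_zero]
  rw [← Finset.sum_subset Finset.inter_subset_left hz1,
    ← Finset.sum_subset Finset.inter_subset_right hz2]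

variable {X : Set (MvPolynomial (Fin l) (𝓞 K))} {d : ℕ} {N : ℕ → ℕ}

/-- **The orders of all powers.** -/
theorem main (hX : IsTwo X d N) (a : Fin (2 * d + 1)) (ha : Odd (a : ℕ)) (hNa : N a ≠ 0)
    (hord : ∀ k : ℕ, 1 ≤ k → ∃ (M : ℕ) (B : HeightOneSpectrum (𝓞 K) → ℂ[X]) (r : ℤ),
      IsQuotient X d N (⊥ : Subgroup (Equiv.Perm (Fin (2 * k)))) (2 * (k * a)) M B ∧
        HasOrder (2 * (k * a)) B r) :
    ∃ f : ℤ → ℤ, Shape f ∧ IsPoleTable X d N (tableOf d N f) ∧
      (∀ M : ℕ, f M = 2 → AlmostTorsion X d N M) ∧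
      tableOf d N f 2 a = count d N 2 (2 * a) 0 + f 1 ∧
      tableOf d N f 4 (2 * a) = count d N 4 (2 * (2 * a)) 0 +
        f 1 * count d N 4 (2 * (2 * a)) 2 + f 2 := by
  obtain ⟨y₁, y₂, h, hx⟩ := exists_pair hX
  have hya : y₁.1 = a := by
    have hodd : ¬ Even ((⟨a, ⟨0, Nat.pos_of_ne_zero hNa⟩⟩ : Letter d N).1 : ℕ) :=
      Nat.not_even_iff_odd.2 ha
    rcases h.cases (⟨a, ⟨0, Nat.pos_of_ne_zero hNa⟩⟩ : Letter d N) with h1 | h1 | ⟨h1, -⟩
    · rw [← h1]
    · rw [← h.same, ← h1]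
    · exact absurd h1 hodd
  obtain ⟨f, hs, h0, hf⟩ := exists_limits h hx (by rw [hya]; exact hord)
  refine ⟨f, shape_of_posDef hs h0 (limits_pos h hf), ?_, ?_, ?_, ?_⟩
  · intro n m M B hB
    have h1 := size_lim h hx hB (f := fun k => (f k : ℝ)) fun k _ => hf k
    have e1 : ((tableOf d N f n m : ℤ) : ℝ) = count d N n (2 * m) 0 +
        ∑ k ∈ Finset.Icc 1 n, count d N n (2 * m) (2 * k) * (f k : ℝ) := by
      unfold tableOf
      push_cast
      congr 1
      exact Finset.sum_congr rfl fun k _ => mul_comm _ _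
    rw [← e1] at h1
    refine ⟨h1, fun r hr => ?_⟩
    have h2 := ord_lim (size_quotient hB).1 hr
    have h3 := tendsto_nhds_unique h2 h1
    push_cast at h3
    rw [neg_neg] at h3
    exact_mod_cast h3
  · intro M hM δ hδ
    refine density_of_two h (M := M) (by have := hf M; rw [hM] at this; exact_mod_cast this) hδ
      (hx.mono fun v hv hmem => ?_)
    obtain ⟨x, y, h1, h2, h3⟩ := hmem
    rw [eig_of_zv h hv h1 h2] at h3
    exact h3
  · have h2 : count d N 2 (2 * a) (2 * (1 : ℕ)) = 1 := by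
      have := h.count_top (n := 2)
      rw [hya] at this
      exact_mod_cast this
    have h4 : count d N 2 (2 * a) (2 * (2 : ℕ)) = 0 := count_big (by norm_num)
    unfold tableOf
    have e1 : Finset.Icc 1 2 = {1, 2} := by decide
    rw [e1, Finset.sum_pair (by norm_num), h2, h4]
    push_cast
    ring
  · have h2 : count d N 4 (2 * (2 * a)) (2 * (2 : ℕ)) = 1 := by
      have := h.count_top (n := 4)
      rw [hya, (by ring : 4 * (a : ℕ) = 2 * (2 * a))] at this
      exact_mod_cast this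
    have h3 : count d N 4 (2 * (2 * a)) (2 * (3 : ℕ)) = 0 := count_big (by norm_num)
    have h4 : count d N 4 (2 * (2 * a)) (2 * (4 : ℕ)) = 0 := count_big (by norm_num)
    unfold tableOf
    have e1 : Finset.Icc 1 4 = {1, 2, 3, 4} := by decide
    rw [e1, Finset.sum_insert (by decide), Finset.sum_insert (by decide),
      Finset.sum_pair (by norm_num), h2, h3, h4]
    push_cast
    ring

end Pool.Agent.NH35.RT
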