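import Pool.Agent.NH35.RT.Orders

/-!
# Rigidity of the orders of the `L`-functions of all powers of a variety

`X` is a smooth projective variety over a number field `K` whose cohomology is of Tate type except for
a two-dimensional piece of odd degree `a`, for example an elliptic curve (`a = 1`).  By Künneth
`H^*(X^n)` has a basis of words `w_1 ⋯ w_n` in the letters of a basis of `H^*(X)`.  The two letters of
degree `a` have the weights `1` and `-1`, the others the weight `0`.  For an elliptic curve without
complex multiplication the algebraic classes in `H^{2m}(E^n)` are the invariants of the group `SL_2`,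
so that their rank is the number of the words of degree `2m` and weight `0` minus the number of the
words of degree `2m` and weight `2`.

We prove, only from the existence of the orders of the `L`-functions `L(H^{2ka}(X^{2k}), s)` at the
points `s = ka + 1`, that the orders of the poles of all the functions `L(H^{2m}(X^n), s)` at
`s = m + 1` are given by one of four patterns, and that the orders for `X^2` and `X^4` determine all
others unless the eigenvalues of Frobenius are almost everywhere close to torsion.
-/

set_option autoImplicit false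

namespace Pool.Agent.Results.MP_058a58_ag.PowersRigidity

open NumberField IsDedekindDomain Filter Topology Polynomial
open Pool.Agent.Y149.WR (Letter deg IsTwo IsEigen IsQuotient)
open Pool.Agent.Y149.Ord (HasOrder)
open Pool.Agent.NH35.RT

theorem result {K : Type} [Field K] [NumberField K] {l : ℕ}
    (X : Set (MvPolynomial (Fin l) (𝓞 K))) (d : ℕ) (N : ℕ → ℕ) (hX : IsTwo X d N)
    (a : Fin (2 * d + 1)) (ha : Odd (a : ℕ)) (hNa : N a ≠ 0)
    (hord : ∀ k : ℕ, 1 ≤ k → ∃ (M : ℕ) (B : HeightOneSpectrum (𝓞 K) → ℂ[X]) (r : ℤ),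
      IsQuotient X d N (⊥ : Subgroup (Equiv.Perm (Fin (2 * k)))) (2 * (k * a)) M B ∧
        HasOrder (2 * (k * a)) B r) :
    ∃ R : ℕ → ℕ → ℤ, IsPoleTable X d N R ∧
      ((∀ n m, R n m = count d N n (2 * m) 0) ∨
        (∃ (D : ℕ) (e : ℤ), 0 < D ∧ (e = 1 ∨ e = -1) ∧
          ∀ n m, R n m = count d N n (2 * m) 0 + e * count d N n (2 * m) (2 * D)) ∨
        (∃ (D : ℕ) (e : ℤ), 0 < D ∧ (e = 1 ∨ e = -1) ∧
          ∀ n m, R n m = count d N n (2 * m) 0 +
            ∑ j ∈ Finset.Icc 1 n, e ^ j * count d N n (2 * m) (2 * D * j)) ∨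
        ∃ M : ℕ, 0 < M ∧ AlmostTorsion X d N M ∧ ∃ f : ℤ → ℤ, f 0 = 2 ∧ (∀ k, f (k + M) = f k) ∧
          ∀ n m, R n m = tableOf d N f n m) ∧
      (R 2 a = count d N 2 (2 * a) 0 - 1 →
        (R 4 (2 * a) = count d N 4 (2 * (2 * a)) 0 - count d N 4 (2 * (2 * a)) 2 →
          (∀ n m, R n m = count d N n (2 * m) 0 - count d N n (2 * m) 2) ∨
            ∃ M : ℕ, 0 < M ∧ AlmostTorsion X d N M) ∧
        (R 4 (2 * a) ≠ count d N 4 (2 * (2 * a)) 0 - count d N 4 (2 * (2 * a)) 2 →
          (∀ n m, R n m = count d N n (2 * m) 0 +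
            ∑ j ∈ Finset.Icc 1 n, (-1 : ℤ) ^ j * count d N n (2 * m) (2 * j)) ∨
            ∃ M : ℕ, 0 < M ∧ AlmostTorsion X d N M)) := by
  obtain ⟨f, hS, hT, hM, h1, h2⟩ := main hX a ha hNa hord
  have hD : ∀ D : ℤ, 0 < D → ∃ D' : ℕ, 0 < D' ∧ D = D' := fun D h =>
    ⟨D.toNat, by omega, by omega⟩
  refine ⟨tableOf d N f, hT, ?_, ?_⟩
  · rcases hS with hS | ⟨D, hD0, e, he, hS⟩ | ⟨D, hD0, e, he, hS⟩ | ⟨M, hM0, hM2, hS⟩
    · left
      intro n m
      rw [← tableOf_zero]
      exact tableOf_congr (fun k hk => hS k hk.ne') n m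
    · right; left
      obtain ⟨D, hD', rfl⟩ := hD D hD0
      refine ⟨D, e, hD', he, fun n m => ?_⟩
      rw [← tableOf_single hD']
      refine tableOf_congr (fun k hk => ?_) n m
      rw [hS k hk.ne']
      by_cases h : k = D
      · rw [if_pos (Or.inl h), if_pos h]
      · rw [if_neg (by omega), if_neg h]
    · right; right; left
      obtain ⟨D, hD', rfl⟩ := hD D hD0
      refine ⟨D, e, hD', he, fun n m => ?_⟩
      rw [← tableOf_multiples hD']
      exact tableOf_congr (fun k hk => hS k hk.ne') n m
    · right; right; right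
      obtain ⟨M, hM', rfl⟩ := hD M hM0
      refine ⟨M, hM', hM M hM2, f, ?_, hS, fun n m => rfl⟩
      have := hS 0
      rw [zero_add] at this
      rw [← this, hM2]
  · intro hR1
    have hf1 : f 1 = -1 := by
      rw [h1] at hR1
      linarith
    constructor
    · intro hR2
      have hf2 : f 2 = 0 := by
        rw [h2, hf1] at hR2
        linarith
      rcases hS with hS | ⟨D, hD0, e, he, hS⟩ | ⟨D, hD0, e, he, hS⟩ | ⟨M, hM0, hM2, hS⟩
      · rw [hS 1 one_ne_zero] at hf1
        norm_num at hf1
      · left
        rw [hS 1 one_ne_zero] at hf1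
        split_ifs at hf1 with h
        have hD1 : D = ((1 : ℕ) : ℤ) := by
          push_cast
          omega
        subst hD1 hf1
        intro n m
        have e1 := tableOf_single (d := d) (N := N) one_pos (-1) n m
        have e2 : tableOf d N f n m =
            tableOf d N (fun k => if k = ((1 : ℕ) : ℤ) then (-1 : ℤ) else 0) n m := by
          refine tableOf_congr (fun k hk => ?_) n m
          rw [hS k hk.ne']
          by_cases h : k = ((1 : ℕ) : ℤ)
          · rw [if_pos (Or.inl h), if_pos h]
          · rw [if_neg (by push_cast at h ⊢; omega), if_neg h]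
        rw [e2, e1]
        push_cast
        ring
      · exfalso
        rw [hS 1 one_ne_zero] at hf1
        split_ifs at hf1 with h
        have hD1 : D = 1 := Int.eq_one_of_dvd_one hD0.le h
        subst hD1
        rw [hS 2 two_ne_zero, if_pos (one_dvd _)] at hf2
        have : ((2 : ℤ) / 1).natAbs = 2 := rfl
        rw [this] at hf2
        rcases he with rfl | rfl <;> norm_num at hf2
      · right
        obtain ⟨M, hM', rfl⟩ := hD M hM0
        exact ⟨M, hM', hM M hM2⟩
    · intro hR2
      rcases hS with hS | ⟨D, hD0, e, he, hS⟩ | ⟨D, hD0, e, he, hS⟩ | ⟨M, hM0, hM2, hS⟩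
      · rw [hS 1 one_ne_zero] at hf1
        norm_num at hf1
      · exfalso
        apply hR2
        rw [h2, hf1]
        have hf1' := hf1
        rw [hS 1 one_ne_zero] at hf1'
        split_ifs at hf1' with h
        have hD1 : D = 1 := by omega
        subst hD1
        rw [hS 2 two_ne_zero, if_neg (by omega)]
        ring
      · left
        rw [hS 1 one_ne_zero] at hf1
        split_ifs at hf1 with h
        have hD1 : D = ((1 : ℕ) : ℤ) := by
          have := Int.eq_one_of_dvd_one hD0.le h
          exact_mod_cast this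
        subst hD1
        have he1 : e = -1 := by
          have : ((1 : ℤ) / ((1 : ℕ) : ℤ)).natAbs = 1 := rfl
          rw [this, pow_one] at hf1
          exact hf1
        subst he1
        intro n m
        have e1 := tableOf_multiples (d := d) (N := N) one_pos (-1) n m
        have e2 : tableOf d N f n m = tableOf d N (fun k => if ((1 : ℕ) : ℤ) ∣ k then
            (-1 : ℤ) ^ (k / ((1 : ℕ) : ℤ)).natAbs else 0) n m :=
          tableOf_congr (fun k hk => hS k hk.ne') n m
        rw [e2, e1]
        push_cast
        simp only [mul_one]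
      · right
        obtain ⟨M, hM', rfl⟩ := hD M hM0
        exact ⟨M, hM', hM M hM2⟩

end Pool.Agent.Results.MP_058a58_ag.PowersRigidity
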