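import Pool.Agent.NH35.RT.Limits

/-!
# The shape of the limits
-/

set_option autoImplicit false

open NumberField IsDedekindDomain Filter Topology Polynomial

namespace Pool.Agent.NH35.RT

open Pool.Agent.Y149.WR
open Pool.Agent.W401.Cheb Pool.Agent.W540.BE
open Pool.Agent.W353.L1
open Pool.Agent.W353.EF (size LFun)
open Pool.Agent.H341R2 (lam lam_tendsto)
open Pool.Agent.Y149.Ord (HasOrder)

/-- The set `S` of primes of `K` has (Dirichlet) density zero. -/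
def DensityZero {K : Type} [Field K] [NumberField K] (S : Set (HeightOneSpectrum (𝓞 K))) : Prop :=
  Tendsto (fun ε : ℝ => (∑' v : S, (Ideal.absNorm v.1.asIdeal : ℝ) ^ (-(1 + ε))) /
    ∑' v : HeightOneSpectrum (𝓞 K), (Ideal.absNorm v.asIdeal : ℝ) ^ (-(1 + ε))) (𝓝[>] 0) (𝓝 0)

variable {K : Type} [Field K] [NumberField K] {l : ℕ} {X : Set (MvPolynomial (Fin l) (𝓞 K))}
  {d : ℕ} {N : ℕ → ℕ} {y₁ y₂ : Letter d N}

theorem densityZero_mono {S T : Set (HeightOneSpectrum (𝓞 K))} (h : S ⊆ T)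
    (hT : DensityZero T) : DensityZero S := by
  classical
  unfold DensityZero at hT ⊢
  refine squeeze_zero' (Eventually.of_forall fun ε => ?_) ?_ hT
  · exact div_nonneg (tsum_nonneg fun v => by positivity) (tsum_nonneg fun v => by positivity)
  · filter_upwards [self_mem_nhdsWithin] with ε hε
    have hε' : (0 : ℝ) < ε := hε
    refine div_le_div_of_nonneg_right ?_ (tsum_nonneg fun v => by positivity)
    have hs : Summable fun v : HeightOneSpectrum (𝓞 K) =>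
        (Ideal.absNorm v.asIdeal : ℝ) ^ (-(1 + ε)) :=
      (normSys (F := K)).summable (-(1 + ε)) (by linarith)
    rw [tsum_subtype S fun v : HeightOneSpectrum (𝓞 K) =>
        (Ideal.absNorm v.asIdeal : ℝ) ^ (-(1 + ε)),
      tsum_subtype T fun v : HeightOneSpectrum (𝓞 K) =>
        (Ideal.absNorm v.asIdeal : ℝ) ^ (-(1 + ε))]
    exact Summable.tsum_le_tsum (fun v => Set.indicator_le_indicator_of_subset h
      (fun v => by positivity) v) (hs.indicator S) (hs.indicator T)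

/-- a criterion -/
theorem densityZero_of {φ : HeightOneSpectrum (𝓞 K) → ℝ} {B : ℝ} (h0 : ∀ v, 0 ≤ φ v)
    (hB : ∀ v, φ v ≤ B) (hφ : Tendsto (fun ε : ℝ => EP (nm K) ε φ / lam ε) (𝓝[>] 0) (𝓝 0))
    {δ : ℝ} (hδ : 0 < δ) : DensityZero {v | δ ≤ φ v} := by
  classical
  unfold DensityZero
  have h1 := (hφ.const_mul δ⁻¹).div (EP_one K) one_ne_zero
  rw [mul_zero, zero_div] at h1
  refine squeeze_zero' (Eventually.of_forall fun ε => ?_) ?_ h1
  · exact div_nonneg (tsum_nonneg fun v => by positivity) (tsum_nonneg fun v => by positivity)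
  · filter_upwards [self_mem_nhdsWithin, lam_tendsto.eventually_gt_atTop 0] with ε hε hl
    have hε' : (0 : ℝ) < ε := hε
    have hl' : (0 : ℝ) < lam ε := hl
    have hs : Summable fun v : HeightOneSpectrum (𝓞 K) =>
        (Ideal.absNorm v.asIdeal : ℝ) ^ (-(1 + ε)) :=
      (normSys (F := K)).summable (-(1 + ε)) (by linarith)
    have e1 : (EP (nm K) ε fun _ => 1) =
        ∑' v : HeightOneSpectrum (𝓞 K), (Ideal.absNorm v.asIdeal : ℝ) ^ (-(1 + ε)) := by
      unfold EP nm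
      simp only [one_mul]
    have e2 : δ⁻¹ * (EP (nm K) ε φ / lam ε) / ((EP (nm K) ε fun _ => 1) / lam ε) =
        (δ⁻¹ * EP (nm K) ε φ) / EP (nm K) ε fun _ => 1 := by
      field_simp
    show _ ≤ δ⁻¹ * (EP (nm K) ε φ / lam ε) / ((EP (nm K) ε fun _ => 1) / lam ε)
    rw [e2, e1]
    refine div_le_div_of_nonneg_right ?_ (tsum_nonneg fun v => by positivity)
    rw [tsum_subtype {v | δ ≤ φ v} fun v : HeightOneSpectrum (𝓞 K) =>
        (Ideal.absNorm v.asIdeal : ℝ) ^ (-(1 + ε))]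
    have hs2 : Summable fun v : HeightOneSpectrum (𝓞 K) =>
        φ v * (Ideal.absNorm v.asIdeal : ℝ) ^ (-(1 + ε)) :=
      summable_EP (normSys (F := K)) hε' (B := B) fun v => by
        rw [abs_of_nonneg (h0 v)]
        exact hB v
    have e3 : δ⁻¹ * EP (nm K) ε φ =
        ∑' v : HeightOneSpectrum (𝓞 K), δ⁻¹ *
          (φ v * (Ideal.absNorm v.asIdeal : ℝ) ^ (-(1 + ε))) := by
      rw [tsum_mul_left]
      rfl
    rw [e3]
    refine Summable.tsum_le_tsum (fun v => ?_) (hs.indicator _) (hs2.mul_left _)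
    by_cases hv : δ ≤ φ v
    · rw [Set.indicator_of_mem (s := {v | δ ≤ φ v}) hv, ← mul_assoc]
      have h3 : (1 : ℝ) ≤ δ⁻¹ * φ v := by
        rw [inv_mul_eq_div, le_div_iff₀ hδ, one_mul]
        exact hv
      have h4 : (0 : ℝ) ≤ (Ideal.absNorm v.asIdeal : ℝ) ^ (-(1 + ε)) := by positivity
      calc (Ideal.absNorm v.asIdeal : ℝ) ^ (-(1 + ε))
          = 1 * (Ideal.absNorm v.asIdeal : ℝ) ^ (-(1 + ε)) := (one_mul _).symm
        _ ≤ δ⁻¹ * φ v * (Ideal.absNorm v.asIdeal : ℝ) ^ (-(1 + ε)) :=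
          mul_le_mul_of_nonneg_right h3 h4
    · rw [Set.indicator_of_notMem (s := {v | δ ≤ φ v}) hv]
      have := h0 v
      positivity

/-- a finite number of primes does not matter -/
theorem densityZero_of' {φ : HeightOneSpectrum (𝓞 K) → ℝ} {B : ℝ} (h0 : ∀ v, 0 ≤ φ v)
    (hB : ∀ v, φ v ≤ B) (hφ : Tendsto (fun ε : ℝ => EP (nm K) ε φ / lam ε) (𝓝[>] 0) (𝓝 0))
    {δ : ℝ} (hδ : 0 < δ) {S : Set (HeightOneSpectrum (𝓞 K))}
    (hS : ∀ᶠ v in cofinite, v ∈ S → δ ≤ φ v) : DensityZero S := by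
  classical
  have hN : NormSys (nm K) := normSys
  set ψ : HeightOneSpectrum (𝓞 K) → ℝ := fun v => if v ∈ S → δ ≤ φ v then 0 else δ with hψ
  have hψ0 : ∀ v, 0 ≤ ψ v := fun v => by
    simp only [hψ]
    split_ifs
    · exact le_rfl
    · exact hδ.le
  have hψB : ∀ v, ψ v ≤ δ := fun v => by
    simp only [hψ]
    split_ifs
    · exact hδ.le
    · exact le_rfl
  have h1 := Pool.Agent.Y722.EP.EP_fin (K := K) (φ := ψ) (B := δ)
    (fun v => by rw [abs_of_nonneg (hψ0 v)]; exact hψB v)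
    (hS.mono fun v hv => by simp only [hψ]; rw [if_pos hv])
  have h2 := hφ.add h1
  rw [add_zero] at h2
  have h3 : Tendsto (fun ε : ℝ => (EP (nm K) ε fun v => φ v + ψ v) / lam ε) (𝓝[>] 0)
      (𝓝 0) := by
    refine h2.congr' ?_
    filter_upwards [self_mem_nhdsWithin] with ε hε
    have hε' : (0 : ℝ) < ε := hε
    rw [EP_add hN hε' (B := B) (B' := δ) (fun v => by rw [abs_of_nonneg (h0 v)]; exact hB v)
      (fun v => by rw [abs_of_nonneg (hψ0 v)]; exact hψB v), add_div]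
  refine densityZero_mono (T := {v | δ ≤ φ v + ψ v}) (fun v hv => ?_)
    (densityZero_of (fun v => add_nonneg (h0 v) (hψ0 v)) (fun v => add_le_add (hB v) (hψB v))
      h3 hδ)
  show δ ≤ φ v + ψ v
  simp only [hψ]
  split_ifs with hc
  · rw [add_zero]
    exact hc hv
  · have := h0 v
    linarith

theorem inv_eq_conj {z : ℂ} (hz : ‖z‖ = 1) : z⁻¹ = (starRingEnd ℂ) z := by
  rw [Complex.inv_def, Complex.normSq_eq_norm_sq, hz]
  simp

/-- the positivity at one prime -/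
theorem phi_pos (h : Pair d N y₁ y₂) (c : ℤ →₀ ℝ) (v : HeightOneSpectrum (𝓞 K)) :
    0 ≤ ∑ p ∈ c.support ×ˢ c.support, c p.1 * c p.2 * phi X y₁ y₂ (p.2 - p.1) v := by
  have hz := zv_norm (X := X) h v
  have hz0 : zv X y₁ y₂ v ≠ 0 := by
    rw [← norm_pos_iff, hz]
    exact one_pos
  set z := zv X y₁ y₂ v with hzd
  set w : ℂ := ∑ j ∈ c.support, (c j : ℂ) * z ^ (2 * j) with hw
  have e1 : (starRingEnd ℂ) w * w = ∑ p ∈ c.support ×ˢ c.support,
      ((c p.1 * c p.2 : ℝ) : ℂ) * z ^ (2 * (p.2 - p.1)) := by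
    rw [hw, map_sum, Finset.sum_mul_sum, Finset.sum_product]
    refine Finset.sum_congr rfl fun i _ => Finset.sum_congr rfl fun j _ => ?_
    rw [map_mul, Complex.conj_ofReal, ← inv_eq_conj (by rw [norm_zpow, hz, one_zpow]),
      ← zpow_neg, mul_sub, zpow_sub₀ hz0, zpow_neg]
    push_cast
    field_simp
  have e2 : ∑ p ∈ c.support ×ˢ c.support, c p.1 * c p.2 * phi X y₁ y₂ (p.2 - p.1) v =
      2 * ((starRingEnd ℂ) w * w).re := by
    rw [e1, Complex.re_sum, Finset.mul_sum]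
    refine Finset.sum_congr rfl fun p _ => ?_
    rw [Complex.re_ofReal_mul]
    unfold phi
    ring
  rw [e2, ← Complex.normSq_eq_conj_mul_self, Complex.ofReal_re]
  have := Complex.normSq_nonneg w
  linarith

/-- the limits form a positive definite function -/
theorem limits_pos (h : Pair d N y₁ y₂) {f : ℤ → ℤ}
    (hf : ∀ k, Tendsto (mean X y₁ y₂ k) (𝓝[>] 0) (𝓝 (f k : ℝ))) (c : ℤ →₀ ℝ) :
    0 ≤ c.sum fun i x => c.sum fun j y => x * y * (f (j - i) : ℝ) := by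
  have hN : NormSys (nm K) := normSys
  have e : (c.sum fun i x => c.sum fun j y => x * y * (f (j - i) : ℝ)) =
      ∑ p ∈ c.support ×ˢ c.support, c p.1 * c p.2 * (f (p.2 - p.1) : ℝ) := by
    rw [Finset.sum_product]
    rfl
  rw [e]
  have h1 : Tendsto (fun ε => ∑ p ∈ c.support ×ˢ c.support,
      c p.1 * c p.2 * mean X y₁ y₂ (p.2 - p.1) ε) (𝓝[>] 0)
      (𝓝 (∑ p ∈ c.support ×ˢ c.support, c p.1 * c p.2 * (f (p.2 - p.1) : ℝ))) :=
    tendsto_finsetSum _ fun p _ => (hf _).const_mul _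
  refine ge_of_tendsto h1 ?_
  filter_upwards [self_mem_nhdsWithin, lam_tendsto.eventually_gt_atTop 0] with ε hε hl
  have hε' : (0 : ℝ) < ε := hε
  have hl' : (0 : ℝ) < lam ε := hl
  have e1 : ∑ p ∈ c.support ×ˢ c.support, c p.1 * c p.2 * mean X y₁ y₂ (p.2 - p.1) ε =
      (EP (nm K) ε fun v => ∑ p ∈ c.support ×ˢ c.support,
        c p.1 * c p.2 * phi X y₁ y₂ (p.2 - p.1) v) / lam ε := by
    rw [EP_sum hN hε' (c.support ×ˢ c.support)
      (fun p v => c p.1 * c p.2 * phi X y₁ y₂ (p.2 - p.1) v)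
      (fun p => |c p.1 * c p.2| * 2) fun p _ v => by
        rw [abs_mul]
        exact mul_le_mul_of_nonneg_left (phi_abs h _ v) (abs_nonneg _), Finset.sum_div]
    refine Finset.sum_congr rfl fun p _ => ?_
    rw [EP_const_mul]
    unfold mean
    ring
  rw [e1]
  exact div_nonneg (EP_nonneg fun v => phi_pos h c v) hl'.le

/-- the case of a value two -/
theorem density_of_two (h : Pair d N y₁ y₂)
    {M : ℤ} (hM : Tendsto (mean X y₁ y₂ M) (𝓝[>] 0) (𝓝 2)) {δ : ℝ} (hδ : 0 < δ)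
    {S : Set (HeightOneSpectrum (𝓞 K))}
    (hS : ∀ᶠ v in cofinite, v ∈ S → δ ≤ ‖zv X y₁ y₂ v ^ (2 * M) - 1‖) : DensityZero S := by
  have hN : NormSys (nm K) := normSys
  have hsq : ∀ v, ‖zv X y₁ y₂ v ^ (2 * M) - 1‖ ^ 2 = 2 + (-1) * phi X y₁ y₂ M v := by
    intro v
    have h1 : ‖zv X y₁ y₂ v ^ (2 * M)‖ = 1 := by rw [norm_zpow, zv_norm h, one_zpow]
    rw [← Complex.normSq_eq_norm_sq, Complex.normSq_sub, Complex.normSq_eq_norm_sq, h1]
    unfold phi
    simp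
    ring
  have hsub : ∀ᶠ v in cofinite, v ∈ S → δ ^ 2 ≤ 2 + (-1) * phi X y₁ y₂ M v := by
    refine hS.mono fun v hv hvS => ?_
    rw [← hsq]
    exact pow_le_pow_left₀ hδ.le (hv hvS) 2
  refine densityZero_of' (φ := fun v => 2 + (-1) * phi X y₁ y₂ M v) (B := 4) (fun v => ?_)
    (fun v => ?_) ?_ (δ := δ ^ 2) (by positivity) hsub
  · rw [← hsq]
    positivity
  · have := (abs_le.1 (phi_abs (X := X) h M v)).1
    linarith
  · have h1 : Tendsto (fun ε : ℝ => 2 * ((EP (nm K) ε fun _ => 1) / lam ε) +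
        (-1) * mean X y₁ y₂ M ε) (𝓝[>] 0) (𝓝 (2 * 1 + (-1) * 2)) :=
      ((EP_one K).const_mul 2).add (hM.const_mul (-1))
    have e0 : (2 : ℝ) * 1 + (-1) * 2 = 0 := by norm_num
    rw [e0] at h1
    refine h1.congr' ?_
    filter_upwards [self_mem_nhdsWithin] with ε hε
    have hε' : (0 : ℝ) < ε := hε
    have e1 : (EP (nm K) ε fun v => 2 + (-1) * phi X y₁ y₂ M v) =
        2 * (EP (nm K) ε fun _ => 1) + (-1) * EP (nm K) ε (phi X y₁ y₂ M) := by
      have e2 : (fun v => 2 + (-1) * phi X y₁ y₂ M v) =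
          fun v => 2 * (1 : ℝ) + (-1) * phi X y₁ y₂ M v := by
        funext v
        ring
      rw [e2, EP_add hN hε' (B := 2) (B' := 2) (fun v => by norm_num) (fun v => by
        rw [abs_mul, abs_neg, abs_one, one_mul]
        exact phi_abs h M v), EP_const_mul, EP_const_mul]
    rw [e1]
    unfold mean
    ring

/-- the eigenvalues in terms of the unit complex numbers -/
theorem eig_of_zv (h : Pair d N y₁ y₂) {v : HeightOneSpectrum (𝓞 K)}
    (hv : ∃ x, GoodEig X y₁ y₂ v x) {x : Letter d N → ℂ} (hx : IsEigen X d N v x)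
    {y : Letter d N} (hy : Odd (y.1 : ℕ)) (M : ℕ) :
    ‖x y ^ (2 * M) / (Ideal.absNorm v.asIdeal : ℂ) ^ ((y.1 : ℕ) * M) - 1‖ =
      ‖zv X y₁ y₂ v ^ (2 * (M : ℤ)) - 1‖ := by
  obtain ⟨x₀, h1, h2⟩ := zv_spec h hv
  obtain ⟨ρ, h3, h4⟩ := h1.perm hx
  have hq := nm_pos2 v
  have hz := zv_norm (X := X) h v
  have hz0 : zv X y₁ y₂ v ≠ 0 := by
    rw [← norm_pos_iff, hz]
    exact one_pos
  set z := zv X y₁ y₂ v with hzd
  have hy' : Odd ((ρ y).1 : ℕ) := by rw [h3]; exact hy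
  have e1 : x y = (((nm K v : ℝ) ^ (((y.1 : ℕ) : ℝ) / 2) : ℝ) : ℂ) *
      z ^ letterWeight (ρ y) := by
    rw [h4, Function.comp_apply, h2, h3]
  have e2 : ((((nm K v : ℝ) ^ (((y.1 : ℕ) : ℝ) / 2) : ℝ) : ℂ)) ^ (2 * M) =
      (Ideal.absNorm v.asIdeal : ℂ) ^ ((y.1 : ℕ) * M) := by
    rw [← Complex.ofReal_pow, ← Real.rpow_natCast, ← Real.rpow_mul hq.le]
    have : ((y.1 : ℕ) : ℝ) / 2 * ((2 * M : ℕ) : ℝ) = (((y.1 : ℕ) * M : ℕ) : ℝ) := by
      push_cast
      ring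
    rw [this, Real.rpow_natCast]
    push_cast
    rfl
  have hq0 : ((Ideal.absNorm v.asIdeal : ℂ)) ^ ((y.1 : ℕ) * M) ≠ 0 := by
    have : (Ideal.absNorm v.asIdeal : ℂ) ≠ 0 := by
      have h5 : (nm K v : ℝ) ≠ 0 := hq.ne'
      exact_mod_cast h5
    exact pow_ne_zero _ this
  have e3 : x y ^ (2 * M) / (Ideal.absNorm v.asIdeal : ℂ) ^ ((y.1 : ℕ) * M) =
      (z ^ letterWeight (ρ y)) ^ (2 * M) := by
    rw [e1, mul_pow, e2, mul_comm, mul_div_assoc, div_self hq0, mul_one]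
  rw [e3]
  have e4 : z ^ (2 * (M : ℤ)) = z ^ (2 * M) := by
    rw [← zpow_natCast]
    push_cast
    rfl
  rw [e4]
  rcases h.cases (ρ y) with h5 | h5 | ⟨h5, -⟩
  · rw [h5, h.w₁, zpow_one]
  · rw [h5, h.w₂, zpow_neg_one, inv_pow, inv_eq_conj (by rw [norm_pow, hz, one_pow])]
    have : (starRingEnd ℂ) (z ^ (2 * M)) - 1 = (starRingEnd ℂ) (z ^ (2 * M) - 1) := by
      rw [map_sub, map_one]
    rw [this, Complex.norm_conj]
  · exact absurd hy' (Nat.not_odd_iff_even.2 h5)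

end Pool.Agent.NH35.RT
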