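import Pool.Agent.NH35.RT.Words
import Pool.Agent.Y149.WR.Size

/-!
# The traces of Frobenius on the cohomology of the powers
-/

set_option autoImplicit false

open NumberField IsDedekindDomain Filter Topology

namespace Pool.Agent.NH35.RT

open Pool.Agent.Y149.WR
open Pool.Agent.W401.Cheb Pool.Agent.W540.BE
open Pool.Agent.W353.L1
open Pool.Agent.H341R2 (lam lam_tendsto)

section
variable {d : ℕ} {N : ℕ → ℕ} {n : ℕ}

theorem sum_ite_weight (i : ℕ) (k : ℤ) (c : ℝ) :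
    (∑ w : {w : Fin n → Letter d N // deg w = i}, if weight w.1 = k then c else 0) =
      count d N n i k * c := by
  classical
  rw [← Finset.sum_filter, Finset.sum_const, nsmul_eq_mul]
  congr 2
  unfold count
  rw [← Fintype.card_subtype, ← Nat.card_eq_fintype_card]
  exact Nat.card_congr (Equiv.subtypeSubtypeEquivSubtypeInter
    (fun w : Fin n → Letter d N => deg w = i) fun w => weight w = k)

theorem sum_words {y₁ y₂ : Letter d N} (h : Pair d N y₁ y₂) {i : ℕ} (hi : Even i) (g : ℤ → ℝ)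
    (hg : ∀ k, g (-k) = g k) :
    ∑ w : {w : Fin n → Letter d N // deg w = i}, g (weight w.1) =
      count d N n i 0 * g 0 + ∑ k ∈ Finset.Icc 1 n, count d N n i (2 * k) * (2 * g (2 * k)) := by
  classical
  set W := {w : Fin n → Letter d N // deg w = i} with hW
  have e1 : ∀ w : W, g (weight w.1) = (if weight w.1 = 0 then g 0 else 0) +
      ((if 0 < weight w.1 then g (weight w.1) else 0) +
        if weight w.1 < 0 then g (weight w.1) else 0) := by
    intro w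
    rcases lt_trichotomy (weight w.1) 0 with h1 | h1 | h1
    · rw [if_neg h1.ne, if_neg (not_lt.2 h1.le), if_pos h1]
      ring
    · rw [if_pos h1, if_neg (by omega), if_neg (by omega), h1]
      ring
    · rw [if_neg h1.ne', if_pos h1, if_neg (not_lt.2 h1.le)]
      ring
  rw [Finset.sum_congr rfl fun w _ => e1 w, Finset.sum_add_distrib, Finset.sum_add_distrib,
    sum_ite_weight]
  congr 1
  have e2 : (∑ w : W, if weight w.1 < 0 then g (weight w.1) else 0) =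
      ∑ w : W, if 0 < weight w.1 then g (weight w.1) else 0 := by
    let E : W ≃ W :=
      { toFun := fun w => ⟨fun j => Equiv.swap y₁ y₂ (w.1 j), by rw [h.swap_deg_word]; exact w.2⟩
        invFun := fun w => ⟨fun j => Equiv.swap y₁ y₂ (w.1 j), by
          rw [h.swap_deg_word]; exact w.2⟩
        left_inv := fun w => Subtype.ext (funext fun j => by simp)
        right_inv := fun w => Subtype.ext (funext fun j => by simp) }
    refine Fintype.sum_equiv E _ _ fun w => ?_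
    have hE : weight (E w).1 = -weight w.1 := h.swap_weight_word w.1
    rw [hE, hg]
    simp only [Left.neg_pos_iff]
  rw [e2]
  have e3 : ∀ w : W, (if 0 < weight w.1 then g (weight w.1) else 0) =
      ∑ k ∈ Finset.Icc 1 n, if weight w.1 = 2 * (k : ℤ) then g (2 * k) else 0 := by
    intro w
    have hp := weight_parity w.1
    rw [w.2] at hp
    have hev : Even (weight w.1) := by
      have h2 : Even ((i : ℕ) : ℤ) := by exact_mod_cast hi
      have := hp.add h2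
      simpa using this
    obtain ⟨c, hc⟩ := hev
    have hab := abs_le.1 (weight_abs w.1)
    split_ifs with h0
    · have hc0 : 0 < c := by omega
      lift c to ℕ using hc0.le
      have hmem : c ∈ Finset.Icc 1 n := by
        rw [Finset.mem_Icc]
        omega
      rw [Finset.sum_eq_single c (fun k _ hk => if_neg fun h2 => hk (by omega))
        (fun h2 => absurd hmem h2), if_pos (by omega), hc]
      congr 1
      ring
    · symm
      refine Finset.sum_eq_zero fun k hk => if_neg fun h2 => h0 ?_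
      rw [Finset.mem_Icc] at hk
      omega
  rw [Finset.sum_congr rfl fun w _ => e3 w, Finset.sum_comm, ← Finset.sum_add_distrib]
  refine Finset.sum_congr rfl fun k _ => ?_
  rw [sum_ite_weight]
  ring

end

section
variable {K : Type} [Field K] [NumberField K] {l : ℕ} {X : Set (MvPolynomial (Fin l) (𝓞 K))}
  {d : ℕ} {N : ℕ → ℕ}

theorem prod_zpow {ι : Type*} (s : Finset ι) {z : ℂ} (hz : z ≠ 0) (f : ι → ℤ) :
    ∏ j ∈ s, z ^ f j = z ^ ∑ j ∈ s, f j := by
  classical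
  induction s using Finset.induction_on with
  | empty => simp
  | insert a s ha ih => rw [Finset.prod_insert ha, Finset.sum_insert ha, zpow_add₀ hz, ih]

theorem GoodEig.spec {y₁ y₂ : Letter d N} (h : Pair d N y₁ y₂) {v : HeightOneSpectrum (𝓞 K)}
    {x : Letter d N → ℂ} (hx : GoodEig X y₁ y₂ v x) {z : ℂ}
    (hz : z = x y₁ / (((nm K v : ℝ) ^ (((y₁.1 : ℕ) : ℝ) / 2) : ℝ) : ℂ)) : ‖z‖ = 1 ∧
      ∀ y, x y = (((nm K v : ℝ) ^ (((y.1 : ℕ) : ℝ) / 2) : ℝ) : ℂ) * z ^ letterWeight y := by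
  have hq := nm_pos2 v
  have hp : ∀ b : ℝ, (0 : ℝ) < (nm K v : ℝ) ^ b := fun b => Real.rpow_pos_of_pos hq b
  have h1 : ‖x y₁‖ = (nm K v : ℝ) ^ (((y₁.1 : ℕ) : ℝ) / 2) := hx.1.norm y₁
  have hn : ‖z‖ = 1 := by
    rw [hz, norm_div, h1, Complex.norm_real, Real.norm_of_nonneg (hp _).le, div_self (hp _).ne']
  have hz0 : z ≠ 0 := by
    rw [← norm_pos_iff, hn]
    exact one_pos
  have hc : ((((nm K v : ℝ) ^ (((y₁.1 : ℕ) : ℝ) / 2) : ℝ) : ℂ)) ≠ 0 :=
    Complex.ofReal_ne_zero.2 (hp _).ne'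
  have hx1 : x y₁ = (((nm K v : ℝ) ^ (((y₁.1 : ℕ) : ℝ) / 2) : ℝ) : ℂ) * z := by
    rw [hz]
    field_simp
  refine ⟨hn, fun y => ?_⟩
  rcases h.cases y with rfl | rfl | ⟨hev, -, -⟩
  · rw [h.w₁, zpow_one, hx1]
  · rw [h.w₂, zpow_neg_one, h.same]
    have h2 := hx.2.2
    have h3 : (Ideal.absNorm v.asIdeal : ℂ) ^ (y₁.1 : ℕ) =
        (((nm K v : ℝ) ^ (((y₁.1 : ℕ) : ℝ) / 2) : ℝ) : ℂ) *
          (((nm K v : ℝ) ^ (((y₁.1 : ℕ) : ℝ) / 2) : ℝ) : ℂ) := by
      rw [← Complex.ofReal_mul, ← Real.rpow_add hq, add_halves, Real.rpow_natCast]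
      push_cast
      rfl
    rw [h3, hx1] at h2
    have h4 : (((nm K v : ℝ) ^ (((y₁.1 : ℕ) : ℝ) / 2) : ℝ) : ℂ) *
        (z * x y - (((nm K v : ℝ) ^ (((y₁.1 : ℕ) : ℝ) / 2) : ℝ) : ℂ)) = 0 := by
      rw [mul_sub, ← mul_assoc, h2, sub_self]
    have h5 := (mul_eq_zero.1 h4).resolve_left hc
    rw [sub_eq_zero] at h5
    rw [← h5]
    field_simp
  · rw [letterWeight_even hev, zpow_zero, mul_one, hx.2.1 y hev]
    obtain ⟨k, hk⟩ := hev
    rw [hk]
    have e1 : (k + k) / 2 = k := by omega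
    have e2 : (((k + k : ℕ)) : ℝ) / 2 = k := by push_cast; ring
    rw [e1, e2, Real.rpow_natCast]
    push_cast
    rfl

/-- the product over a word -/
theorem prod_word {n : ℕ} {q : ℝ} (hq : 0 < q) {z : ℂ} (hz : z ≠ 0) {x : Letter d N → ℂ}
    (hx : ∀ y, x y = ((q ^ (((y.1 : ℕ) : ℝ) / 2) : ℝ) : ℂ) * z ^ letterWeight y)
    (w : Fin n → Letter d N) :
    ∏ j, x (w j) = ((q ^ ((deg w : ℝ) / 2) : ℝ) : ℂ) * z ^ weight w := by
  rw [Finset.prod_congr rfl fun j _ => hx (w j), Finset.prod_mul_distrib, prod_zpow _ hz,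
    ← Complex.ofReal_prod, ← Real.rpow_sum_of_pos hq]
  congr 3
  rw [← Finset.sum_div]
  unfold deg
  push_cast
  rfl

theorem T_one {n : ℕ} (x : Letter d N → ℂ) (i : ℕ) :
    T (1 : Equiv.Perm (Fin n)) x i =
      ∑ w : {w : Fin n → Letter d N // deg w = i}, ∏ j, x (w.1 j) := by
  classical
  unfold T
  refine Fintype.sum_equiv
    { toFun := fun w => ⟨w.1, w.2.2⟩
      invFun := fun w => ⟨w.1, rfl, w.2⟩
      left_inv := fun w => rfl
      right_inv := fun w => rfl } _ _ fun w => ?_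
  simp only [Equiv.coe_fn_mk]
  have e : sgn (1 : Equiv.Perm (Fin n)) w.1 = 1 := by
    rw [sgn_eq]
    unfold signOn
    have hh : ∀ j, (fun j => Odd ((w.1 j).1 : ℕ)) ((1 : Equiv.Perm (Fin n)) j) ↔
        (fun j => Odd ((w.1 j).1 : ℕ)) j := fun j => Iff.rfl
    rw [dif_pos hh]
    have e1 : (1 : Equiv.Perm (Fin n)).subtypePerm (p := fun j => Odd ((w.1 j).1 : ℕ)) hh =
        1 := by
      ext j
      rfl
    rw [e1, map_one]
    norm_num
  rw [e, one_mul]

open Classical in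
/-- the normalised eigenvalue -/
noncomputable def zv (X : Set (MvPolynomial (Fin l) (𝓞 K))) {d : ℕ} {N : ℕ → ℕ}
    (y₁ y₂ : Letter d N) (v : HeightOneSpectrum (𝓞 K)) : ℂ :=
  if h : ∃ x, GoodEig X y₁ y₂ v x then
    h.choose y₁ / (((nm K v : ℝ) ^ (((y₁.1 : ℕ) : ℝ) / 2) : ℝ) : ℂ)
  else 1

theorem zv_norm {y₁ y₂ : Letter d N} (h : Pair d N y₁ y₂) (v : HeightOneSpectrum (𝓞 K)) :
    ‖zv X y₁ y₂ v‖ = 1 := by
  unfold zv
  split_ifs with hx
  · exact (hx.choose_spec.spec h rfl).1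
  · exact norm_one

theorem zv_spec {y₁ y₂ : Letter d N} (h : Pair d N y₁ y₂) {v : HeightOneSpectrum (𝓞 K)}
    (hx : ∃ x, GoodEig X y₁ y₂ v x) : ∃ x, IsEigen X d N v x ∧
      ∀ y, x y = (((nm K v : ℝ) ^ (((y.1 : ℕ) : ℝ) / 2) : ℝ) : ℂ) *
        zv X y₁ y₂ v ^ letterWeight y := by
  refine ⟨hx.choose, hx.choose_spec.1, ?_⟩
  refine (hx.choose_spec.spec h ?_).2
  unfold zv
  rw [dif_pos hx]

/-- the functions `2 cos (2 k θ_v)` -/
noncomputable def phi (X : Set (MvPolynomial (Fin l) (𝓞 K))) {d : ℕ} {N : ℕ → ℕ}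
    (y₁ y₂ : Letter d N) (k : ℤ) (v : HeightOneSpectrum (𝓞 K)) : ℝ :=
  2 * (zv X y₁ y₂ v ^ (2 * k)).re

theorem phi_zero (y₁ y₂ : Letter d N) (v : HeightOneSpectrum (𝓞 K)) :
    phi X y₁ y₂ 0 v = 2 := by
  unfold phi
  simp

theorem re_zpow_neg {z : ℂ} (hz : ‖z‖ = 1) (k : ℤ) : (z ^ (-k)).re = (z ^ k).re := by
  have h1 : (z ^ k)⁻¹ = (starRingEnd ℂ) (z ^ k) := by
    rw [Complex.inv_def]
    have : Complex.normSq (z ^ k) = 1 := by
      rw [Complex.normSq_eq_norm_sq, norm_zpow, hz, one_zpow, one_pow]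
    rw [this]
    simp
  rw [zpow_neg, h1, Complex.conj_re]

theorem phi_neg {y₁ y₂ : Letter d N} (h : Pair d N y₁ y₂) (k : ℤ)
    (v : HeightOneSpectrum (𝓞 K)) : phi X y₁ y₂ (-k) v = phi X y₁ y₂ k v := by
  unfold phi
  rw [mul_neg, re_zpow_neg (zv_norm h v)]

theorem phi_abs {y₁ y₂ : Letter d N} (h : Pair d N y₁ y₂) (k : ℤ)
    (v : HeightOneSpectrum (𝓞 K)) : |phi X y₁ y₂ k v| ≤ 2 := by
  unfold phi
  rw [abs_mul, abs_two]
  have h1 := Complex.abs_re_le_norm (zv X y₁ y₂ v ^ (2 * k))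
  rw [norm_zpow, zv_norm h, one_zpow] at h1
  linarith

/-- **The traces on the even cohomology of the powers.** -/
theorem mt_words {y₁ y₂ : Letter d N} (h : Pair d N y₁ y₂) (n m : ℕ)
    {v : HeightOneSpectrum (𝓞 K)} (hx : ∃ x, GoodEig X y₁ y₂ v x) :
    Pool.Agent.Y149.WR.mt X d N n (2 * m) (⊥ : Subgroup (Equiv.Perm (Fin n))) v =
      count d N n (2 * m) 0 +
        ∑ k ∈ Finset.Icc 1 n, count d N n (2 * m) (2 * k) * phi X y₁ y₂ k v := by
  classical
  obtain ⟨x, h1, h2⟩ := zv_spec h hx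
  have hxv : IsEigen X d N v (xv X d N v) := xv_spec ⟨x, h1⟩
  have hq := nm_pos2 v
  have hz := zv_norm (X := X) h v
  have hz0 : zv X y₁ y₂ v ≠ 0 := by
    rw [← norm_pos_iff, hz]
    exact one_pos
  have e0 : Pool.Agent.Y149.WR.mt X d N n (2 * m) (⊥ : Subgroup (Equiv.Perm (Fin n))) v =
      tt X d N n (2 * m) 1 v := by
    have key : ∀ F : Fintype (⊥ : Subgroup (Equiv.Perm (Fin n))),
        ((@Fintype.card _ F : ℕ) : ℝ)⁻¹ * (@Finset.sum _ _ _ (@Finset.univ _ F) fun τ =>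
          tt X d N n (2 * m) τ.1 v) = tt X d N n (2 * m) 1 v := by
      intro F
      have e2 : ∀ τ : (⊥ : Subgroup (Equiv.Perm (Fin n))), τ.1 = 1 :=
        fun τ => Subgroup.mem_bot.1 τ.2
      have e3 : ((Fintype.card (⊥ : Subgroup (Equiv.Perm (Fin n))) : ℕ) : ℝ) ≠ 0 := by
        exact_mod_cast Fintype.card_ne_zero
      rw [Finset.sum_congr rfl fun τ _ => by rw [e2 τ], Finset.sum_const, Finset.card_univ,
        nsmul_eq_mul, ← mul_assoc, inv_mul_cancel₀ e3, one_mul]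
    exact key _
  rw [e0]
  unfold tt
  rw [if_pos hxv, hxv.T_eq h1, T_one]
  have e3 : ∀ w : {w : Fin n → Letter d N // deg w = 2 * m}, ∏ j, x (w.1 j) =
      (((nm K v : ℝ) ^ (((2 * m : ℕ) : ℝ) / 2) : ℝ) : ℂ) * zv X y₁ y₂ v ^ weight w.1 := by
    intro w
    rw [prod_word hq hz0 h2, w.2]
  rw [Finset.sum_congr rfl fun w _ => e3 w, ← Finset.mul_sum, Complex.re_ofReal_mul,
    Complex.re_sum, mul_comm, ← mul_assoc, ← Real.rpow_add hq, neg_add_cancel, Real.rpow_zero,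
    one_mul]
  rw [sum_words h (even_two_mul m) (fun k => (zv X y₁ y₂ v ^ k).re)
    fun k => re_zpow_neg hz k]
  simp only [zpow_zero, Complex.one_re, mul_one]
  rfl

end

end Pool.Agent.NH35.RT
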