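import Pool.Agent.Y149.WR.Defs

/-!
# The weights of the words

`X` is a variety whose cohomology is of Tate type except for a two-dimensional piece of odd degree.
The letters of odd degree are numbered `0`, `1`; they get the weights `1` and `-1`, all other
letters the weight `0`.
-/

set_option autoImplicit false

open NumberField IsDedekindDomain Filter Topology

namespace Pool.Agent.NH35.RT

open Pool.Agent.Y149.WR (Letter deg IsTwo IsEigen)

variable {d : ℕ} {N : ℕ → ℕ} {n : ℕ}

open Classical in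
/-- The weight of a letter: zero for the letters of even degree, `(-1) ^ j` for the letter number `j`
of an odd degree. -/
noncomputable def letterWeight (y : Letter d N) : ℤ :=
  if Odd (y.1 : ℕ) then (-1) ^ (y.2 : ℕ) else 0

/-- The weight of a word: the sum of the weights of its letters. -/
noncomputable def weight (w : Fin n → Letter d N) : ℤ := ∑ j, letterWeight (w j)

/-- The number of the words of length `n`, degree `i` and weight `k`. -/
noncomputable def count (d : ℕ) (N : ℕ → ℕ) (n i : ℕ) (k : ℤ) : ℕ :=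
  Nat.card {w : Fin n → Letter d N // deg w = i ∧ weight w = k}

theorem letterWeight_even {y : Letter d N} (h : Even (y.1 : ℕ)) : letterWeight y = 0 := by
  unfold letterWeight
  rw [if_neg (Nat.not_odd_iff_even.2 h)]

theorem letterWeight_odd {y : Letter d N} (h : Odd (y.1 : ℕ)) :
    letterWeight y = (-1) ^ (y.2 : ℕ) := by
  unfold letterWeight
  rw [if_pos h]

theorem letterWeight_cases (y : Letter d N) :
    letterWeight y = 0 ∨ letterWeight y = 1 ∨ letterWeight y = -1 := by
  unfold letterWeight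
  split_ifs
  · exact Or.inr (neg_one_pow_eq_or ℤ _)
  · exact Or.inl rfl

theorem letterWeight_abs (y : Letter d N) : |letterWeight y| ≤ 1 := by
  rcases letterWeight_cases y with h | h | h <;> rw [h] <;> norm_num

theorem letterWeight_parity (y : Letter d N) :
    Even (letterWeight y - ((y.1 : ℕ) : ℤ)) := by
  unfold letterWeight
  split_ifs with h
  · obtain ⟨k, hk⟩ := h
    rcases neg_one_pow_eq_or ℤ (y.2 : ℕ) with h1 | h1 <;> rw [h1, hk]
    · exact ⟨-k, by push_cast; ring⟩
    · exact ⟨-k - 1, by push_cast; ring⟩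
  · obtain ⟨k, hk⟩ := Nat.not_odd_iff_even.1 h
    rw [hk]
    exact ⟨-k, by push_cast; ring⟩

/-- the weight has the parity of the degree -/
theorem weight_parity (w : Fin n → Letter d N) : Even (weight w - (deg w : ℤ)) := by
  unfold weight deg
  rw [Nat.cast_sum, ← Finset.sum_sub_distrib]
  exact Finset.even_sum _ fun j _ => letterWeight_parity (w j)

theorem weight_abs (w : Fin n → Letter d N) : |weight w| ≤ n := by
  unfold weight
  refine (Finset.abs_sum_le_sum_abs _ _).trans ?_
  refine (Finset.sum_le_card_nsmul _ _ 1 fun j _ => letterWeight_abs (w j)).trans ?_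
  simp

/-- the letters of odd degree -/
structure Pair (d : ℕ) (N : ℕ → ℕ) (y₁ y₂ : Letter d N) : Prop where
  ne : y₁ ≠ y₂
  odd₁ : Odd (y₁.1 : ℕ)
  same : y₂.1 = y₁.1
  other : ∀ y : Letter d N, y ≠ y₁ → y ≠ y₂ → Even (y.1 : ℕ)
  w₁ : letterWeight y₁ = 1
  w₂ : letterWeight y₂ = -1

namespace Pair

variable {y₁ y₂ : Letter d N} (h : Pair d N y₁ y₂)
include h

theorem odd₂ : Odd (y₂.1 : ℕ) := by rw [h.same]; exact h.odd₁

theorem eq_of_one {y : Letter d N} (hy : letterWeight y = 1) : y = y₁ := by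
  by_contra hne
  by_cases h2 : y = y₂
  · rw [h2, h.w₂] at hy
    norm_num at hy
  · rw [letterWeight_even (h.other y hne h2)] at hy
    norm_num at hy

theorem cases (y : Letter d N) : y = y₁ ∨ y = y₂ ∨ (Even (y.1 : ℕ) ∧ y ≠ y₁ ∧ y ≠ y₂) := by
  by_cases h1 : y = y₁
  · exact Or.inl h1
  · by_cases h2 : y = y₂
    · exact Or.inr (Or.inl h2)
    · exact Or.inr (Or.inr ⟨h.other y h1 h2, h1, h2⟩)

open Classical in
theorem swap_degree (y : Letter d N) : (Equiv.swap y₁ y₂ y).1 = y.1 := by
  rcases h.cases y with rfl | rfl | ⟨_, h1, h2⟩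
  · rw [Equiv.swap_apply_left, h.same]
  · rw [Equiv.swap_apply_right, h.same]
  · rw [Equiv.swap_apply_of_ne_of_ne h1 h2]

open Classical in
theorem swap_weight (y : Letter d N) :
    letterWeight (Equiv.swap y₁ y₂ y) = -letterWeight y := by
  rcases h.cases y with rfl | rfl | ⟨h0, h1, h2⟩
  · rw [Equiv.swap_apply_left, h.w₁, h.w₂]
  · rw [Equiv.swap_apply_right, h.w₁, h.w₂, neg_neg]
  · rw [Equiv.swap_apply_of_ne_of_ne h1 h2, letterWeight_even h0, neg_zero]

open Classical in
theorem swap_deg_word (w : Fin n → Letter d N) :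
    deg (fun j => Equiv.swap y₁ y₂ (w j)) = deg w := by
  unfold deg
  exact Finset.sum_congr rfl fun j _ => by rw [h.swap_degree]

open Classical in
theorem swap_weight_word (w : Fin n → Letter d N) :
    weight (fun j => Equiv.swap y₁ y₂ (w j)) = -weight w := by
  unfold weight
  rw [← Finset.sum_neg_distrib]
  exact Finset.sum_congr rfl fun j _ => by rw [h.swap_weight]

/-- the words of maximal weight -/
theorem eq_of_weight {w : Fin n → Letter d N} (hw : weight w = n) : w = fun _ => y₁ := by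
  have h1 : ∑ j, (1 - letterWeight (w j)) = 0 := by
    rw [Finset.sum_sub_distrib]
    unfold weight at hw
    rw [hw]
    simp
  have h2 := (Finset.sum_eq_zero_iff_of_nonneg fun j _ => by
    have := (abs_le.1 (letterWeight_abs (w j))).2
    linarith).1 h1
  funext j
  refine h.eq_of_one ?_
  have := h2 j (Finset.mem_univ _)
  linarith

theorem weight_const : weight (fun _ : Fin n => y₁) = n := by
  unfold weight
  simp [h.w₁]

omit h in
theorem deg_const : deg (fun _ : Fin n => y₁) = n * (y₁.1 : ℕ) := by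
  unfold deg
  simp

/-- there is one word of maximal weight -/
theorem count_top : count d N n (n * (y₁.1 : ℕ)) n = 1 := by
  unfold count
  rw [Nat.card_eq_one_iff_unique]
  refine ⟨⟨fun a b => Subtype.ext ?_⟩, ⟨⟨fun _ => y₁, deg_const, h.weight_const⟩⟩⟩
  rw [h.eq_of_weight a.2.2, h.eq_of_weight b.2.2]

end Pair

theorem count_big {i : ℕ} {k : ℤ} (hk : (n : ℤ) < k) : count d N n i k = 0 := by
  unfold count
  rw [Nat.card_eq_zero]
  left
  refine ⟨fun w => ?_⟩
  have h1 := weight_abs w.1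
  rw [w.2.2] at h1
  have := le_abs_self k
  linarith

variable {K : Type} [Field K] [NumberField K] {l : ℕ} {X : Set (MvPolynomial (Fin l) (𝓞 K))}

/-- the eigenvalues with the required properties -/
def GoodEig (X : Set (MvPolynomial (Fin l) (𝓞 K))) {d : ℕ} {N : ℕ → ℕ} (y₁ y₂ : Letter d N)
    (v : HeightOneSpectrum (𝓞 K)) (x : Letter d N → ℂ) : Prop :=
  IsEigen X d N v x ∧
    (∀ y, Even (y.1 : ℕ) → x y = (Ideal.absNorm v.asIdeal : ℂ) ^ ((y.1 : ℕ) / 2)) ∧
    x y₁ * x y₂ = (Ideal.absNorm v.asIdeal : ℂ) ^ (y₁.1 : ℕ)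

theorem exists_pair (hX : IsTwo X d N) : ∃ y₁ y₂ : Letter d N, Pair d N y₁ y₂ ∧
    ∀ᶠ v : HeightOneSpectrum (𝓞 K) in cofinite, ∃ x, GoodEig X y₁ y₂ v x := by
  obtain ⟨y₁, y₂, hne, ho, h12, hev, hv⟩ := hX
  obtain ⟨a, i⟩ := y₁
  obtain ⟨a', j⟩ := y₂
  obtain rfl : a' = a := h12
  have ho' : Odd (a' : ℕ) := ho
  have hij : i ≠ j := fun h => hne (by rw [h])
  have hall : ∀ k : Fin (N a'), k = i ∨ k = j := by
    intro k
    by_contra hcon
    push Not at hcon
    have := hev ⟨a', k⟩ (fun h => hcon.1 (eq_of_heq (Sigma.mk.inj h).2))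
      (fun h => hcon.2 (eq_of_heq (Sigma.mk.inj h).2))
    exact (Nat.not_even_iff_odd.2 ho') this
  have hlt : ∀ k : Fin (N a'), (k : ℕ) < 2 := by
    intro k
    have hc : N a' ≤ 2 := by
      have h1 : (Finset.univ : Finset (Fin (N a'))) ⊆ {i, j} := fun k _ => by
        rcases hall k with rfl | rfl <;> simp
      have h2 := (Finset.card_le_card h1).trans (Finset.card_le_two)
      simpa using h2
    have := k.2
    omega
  have hi := hlt i
  have hj := hlt j
  have hij' : (i : ℕ) ≠ (j : ℕ) := fun h => hij (Fin.ext h)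
  have hcase : ((i : ℕ) = 0 ∧ (j : ℕ) = 1) ∨ ((i : ℕ) = 1 ∧ (j : ℕ) = 0) := by omega
  rcases hcase with ⟨h0, h1⟩ | ⟨h1, h0⟩
  · refine ⟨⟨a', i⟩, ⟨a', j⟩, ⟨hne, ho, rfl, hev, ?_, ?_⟩, hv⟩
    · rw [letterWeight_odd ho]
      show (-1 : ℤ) ^ (i : ℕ) = 1
      rw [h0, pow_zero]
    · rw [letterWeight_odd (y := (⟨a', j⟩ : Letter d N)) ho']
      show (-1 : ℤ) ^ (j : ℕ) = -1
      rw [h1, pow_one]
  · refine ⟨⟨a', j⟩, ⟨a', i⟩, ⟨hne.symm, ho, rfl, fun y h2 h3 => hev y h3 h2, ?_, ?_⟩, ?_⟩
    · rw [letterWeight_odd (y := (⟨a', j⟩ : Letter d N)) ho']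
      show (-1 : ℤ) ^ (j : ℕ) = 1
      rw [h0, pow_zero]
    · rw [letterWeight_odd ho]
      show (-1 : ℤ) ^ (i : ℕ) = -1
      rw [h1, pow_one]
    · exact hv.mono fun v hv => by
        obtain ⟨x, h1, h2, h3⟩ := hv
        exact ⟨x, h1, h2, by rw [mul_comm]; exact h3⟩

end Pool.Agent.NH35.RT
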